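import Pool.Agent.R973.Pin.Expec

/-!
# Convergence of the averaged free energy; elementary bounds
-/

set_option autoImplicit false

open MeasureTheory ProbabilityTheory Filter Topology

namespace Pool.Agent.R973.Pin

open Pool.Agent.R973.Pinning (disorder Z ham walk edgeSign IsFreeEnergy hc)

variable (ν : Measure ℝ) [IsProbabilityMeasure ν]

instance disorder_prob : IsProbabilityMeasure (disorder ν) := by
  unfold disorder; infer_instance

lemma integrable_coord' {f : ℝ → ℝ} (hf : Measurable f) (n : ℕ) (h : Integrable f ν) :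
    Integrable (fun x : ℕ → ℝ => f (x n)) (disorder ν) := (Cp.integrable_coord ν hf n).2 h

lemma int_coord' {f : ℝ → ℝ} (hf : Measurable f) (n : ℕ) :
    ∫ x : ℕ → ℝ, f (x n) ∂(disorder ν) = ∫ u, f u ∂ν := Cp.int_coord ν hf n

/-- truncation -/
noncomputable def clip (K v : ℝ) : ℝ := max (-K) (min K v)

lemma clip_abs {K : ℝ} (hK : 0 ≤ K) (v : ℝ) : |clip K v| ≤ K := by
  unfold clip
  rw [abs_le]
  exact ⟨le_max_left _ _, max_le (by linarith) (min_le_left _ _)⟩

lemma clip_err {K : ℝ} (hK : 0 ≤ K) {v m : ℝ} (hv : |v| ≤ m) : |v - clip K v| ≤ max (m - K) 0 := by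
  unfold clip
  have h1 := abs_le.1 hv
  rcases le_total K v with h | h
  · rw [min_eq_left h, max_eq_right (by linarith), abs_of_nonneg (by linarith)]
    exact (by linarith : v - K ≤ m - K).trans (le_max_left _ _)
  · rw [min_eq_right h]
    rcases le_total (-K) v with h2 | h2
    · rw [max_eq_right h2, sub_self, abs_zero]
      exact le_max_right _ _
    · rw [max_eq_left h2, abs_of_nonpos (by linarith)]
      exact (by linarith : -(v - -K) ≤ m - K).trans (le_max_left _ _)

lemma clip_of {K v : ℝ} (h : |v| ≤ K) : clip K v = v := by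
  unfold clip
  have := abs_le.1 h
  rw [min_eq_right this.2, max_eq_right this.1]

lemma continuous_clip (K : ℝ) : Continuous (clip K) := by
  unfold clip
  fun_prop

lemma mean_tendsto {Y : ℕ → (ℕ → ℝ) → ℝ} {g : ℝ → ℝ} {y : ℝ} (hYm : ∀ n, Measurable (Y n))
    (hg : Measurable g) (hgi : Integrable g ν)
    (hY : ∀ n η, |Y n η| ≤ (n : ℝ)⁻¹ * ∑ i ∈ Finset.Icc 1 n, g (η i))
    (hlim : ∀ᵐ η ∂(disorder ν), Tendsto (fun n => Y n η) atTop (𝓝 y)) :
    Tendsto (fun n => ∫ η, Y n η ∂(disorder ν)) atTop (𝓝 y) := by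
  have hgin : ∀ i, Integrable (fun η : ℕ → ℝ => g (η i)) (disorder ν) := fun i =>
    integrable_coord' ν hg i hgi
  have hYi : ∀ n, Integrable (Y n) (disorder ν) := by
    intro n
    have h1 : Integrable (fun η : ℕ → ℝ => (n : ℝ)⁻¹ * ∑ i ∈ Finset.Icc 1 n, g (η i))
        (disorder ν) := (integrable_finsetSum _ fun i _ => hgin i).const_mul _
    apply h1.mono (hYm n).aestronglyMeasurable
    filter_upwards with η
    rw [Real.norm_eq_abs, Real.norm_eq_abs]
    exact (hY n η).trans (le_abs_self _)
  -- tails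
  have htail : Tendsto (fun K : ℕ => ∫ u, max (g u - K) 0 ∂ν) atTop (𝓝 0) := by
    have h1 : Tendsto (fun K : ℕ => ∫ u, max (g u - K) 0 ∂ν) atTop (𝓝 (∫ _u, (0 : ℝ) ∂ν)) := by
      apply tendsto_integral_of_dominated_convergence (fun u => |g u|)
      · intro K
        exact ((hg.sub_const _).max measurable_const).aestronglyMeasurable
      · exact hgi.abs
      · intro K
        filter_upwards with u
        rw [Real.norm_eq_abs, abs_of_nonneg (le_max_right _ _)]
        apply max_le _ (abs_nonneg _)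
        have h2 : (0 : ℝ) ≤ K := Nat.cast_nonneg K
        linarith [le_abs_self (g u)]
      · filter_upwards with u
        apply tendsto_const_nhds.congr'
        filter_upwards [eventually_ge_atTop ⌈g u⌉₊] with K hK
        rw [max_eq_right]
        have h2 : (⌈g u⌉₊ : ℝ) ≤ K := by exact_mod_cast hK
        have h3 := Nat.le_ceil (g u)
        linarith
    simpa using h1
  rw [Metric.tendsto_atTop]
  intro ε hε
  obtain ⟨K, hK1, hK2⟩ : ∃ K : ℕ, |y| < K ∧ ∫ u, max (g u - K) 0 ∂ν < ε / 2 := by
    have h1 := htail.eventually (gt_mem_nhds (half_pos hε))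
    have h2 : ∀ᶠ K : ℕ in atTop, |y| < K := by
      filter_upwards [eventually_gt_atTop ⌈|y|⌉₊] with K hK
      have h2 : (⌈|y|⌉₊ : ℝ) < K := by exact_mod_cast hK
      exact (Nat.le_ceil _).trans_lt h2
    exact (h2.and h1).exists
  have hK0 : (0 : ℝ) ≤ K := (abs_nonneg y).trans hK1.le
  have hclip : Tendsto (fun n => ∫ η, clip K (Y n η) ∂(disorder ν)) atTop (𝓝 y) := by
    have h1 : Tendsto (fun n => ∫ η, clip K (Y n η) ∂(disorder ν)) atTop
        (𝓝 (∫ _η, y ∂(disorder ν))) := by
      apply tendsto_integral_of_dominated_convergence (fun _ => (K : ℝ))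
      · intro n
        exact ((continuous_clip K).measurable.comp (hYm n)).aestronglyMeasurable
      · exact integrable_const _
      · intro n
        filter_upwards with η
        exact clip_abs hK0 _
      · filter_upwards [hlim] with η hη
        have h2 := ((continuous_clip K).tendsto y).comp hη
        rw [clip_of hK1.le] at h2
        exact h2
    simpa using h1
  have herr : ∀ n, |∫ η, Y n η ∂(disorder ν) - ∫ η, clip K (Y n η) ∂(disorder ν)|
      ≤ ∫ u, max (g u - K) 0 ∂ν := by
    intro n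
    have hci : Integrable (fun η => clip K (Y n η)) (disorder ν) := by
      apply Integrable.of_bound ((continuous_clip K).measurable.comp (hYm n)).aestronglyMeasurable K
      filter_upwards with η
      exact clip_abs hK0 _
    have hmaxm : Measurable fun u => max (g u - K) 0 := (hg.sub_const _).max measurable_const
    have hmaxi : Integrable (fun u => max (g u - K) 0) ν :=
      (hgi.sub (integrable_const _)).sup (integrable_const _)
    rcases Nat.eq_zero_or_pos n with h0 | h0
    · subst h0
      have h1 : ∀ η, Y 0 η = 0 := by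
        intro η
        have := hY 0 η
        simp at this
        exact this
      simp only [h1]
      have h2 : clip K 0 = 0 := clip_of (by rw [abs_zero]; exact hK0)
      simp only [h2, sub_self, abs_zero]
      exact integral_nonneg fun u => le_max_right _ _
    · have hn' : (0 : ℝ) < n := by exact_mod_cast h0
      rw [← integral_sub (hYi n) hci]
      have hmi : ∀ i, Integrable (fun η : ℕ → ℝ => max (g (η i) - K) 0) (disorder ν) := fun i =>
        integrable_coord' ν hmaxm i hmaxi
      have hR : Integrable (fun η : ℕ → ℝ => (n : ℝ)⁻¹ * ∑ i ∈ Finset.Icc 1 n,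
          max (g (η i) - K) 0) (disorder ν) :=
        (integrable_finsetSum _ fun i _ => hmi i).const_mul _
      calc |∫ η, (Y n η - clip K (Y n η)) ∂(disorder ν)|
          ≤ ∫ η, |Y n η - clip K (Y n η)| ∂(disorder ν) := abs_integral_le_integral_abs
        _ ≤ ∫ η, ((n : ℝ)⁻¹ * ∑ i ∈ Finset.Icc 1 n, max (g (η i) - K) 0) ∂(disorder ν) := by
            have hsub : Integrable (fun η => |Y n η - clip K (Y n η)|) (disorder ν) :=
              ((hYi n).sub hci).abs
            apply integral_mono hsub hR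
            intro η
            refine (clip_err hK0 (hY n η)).trans ?_
            apply max_le
            · have h1 : (n : ℝ)⁻¹ * ∑ i ∈ Finset.Icc 1 n, g (η i) - K
                  = (n : ℝ)⁻¹ * ∑ i ∈ Finset.Icc 1 n, (g (η i) - K) := by
                rw [Finset.sum_sub_distrib, Finset.sum_const, Nat.card_Icc, nsmul_eq_mul,
                  Nat.add_sub_cancel]
                field_simp
              rw [h1]
              apply mul_le_mul_of_nonneg_left _ (by positivity)
              exact Finset.sum_le_sum fun i _ => le_max_left _ _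
            · apply mul_nonneg (by positivity)
              exact Finset.sum_nonneg fun i _ => le_max_right _ _
        _ = ∫ u, max (g u - K) 0 ∂ν := by
            rw [integral_const_mul, integral_finsetSum _ fun i _ => hmi i]
            simp only [int_coord' ν hmaxm]
            rw [Finset.sum_const, Nat.card_Icc, nsmul_eq_mul, Nat.add_sub_cancel]
            field_simp
  obtain ⟨N, hN⟩ := (Metric.tendsto_atTop.1 hclip) (ε / 2) (half_pos hε)
  refine ⟨N, fun n hn => ?_⟩
  have h1 := hN n hn
  rw [Real.dist_eq] at h1 ⊢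
  have h2 := herr n
  calc |∫ η, Y n η ∂(disorder ν) - y|
      = |(∫ η, Y n η ∂(disorder ν) - ∫ η, clip K (Y n η) ∂(disorder ν))
        + (∫ η, clip K (Y n η) ∂(disorder ν) - y)| := by congr 1; ring
    _ ≤ |∫ η, Y n η ∂(disorder ν) - ∫ η, clip K (Y n η) ∂(disorder ν)|
        + |∫ η, clip K (Y n η) ∂(disorder ν) - y| := abs_add_le _ _
    _ < ε := by linarith

lemma Z_pos (lam h s : ℝ) (η : ℕ → ℝ) (n : ℕ) : 0 < Z lam h s n η := by
  rw [Z_eq]
  exact mul_pos (Real.exp_pos _) (Vk_pos (Real.exp_pos _) (As_pos _) n 0 0)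

lemma measurable_Z (lam h s : ℝ) (n : ℕ) : Measurable (Z lam h s n) := by
  have h1 : Z lam h s n = fun η => Real.exp (h * n)
      * Vk (Real.exp (-2 * h)) (As (xr lam s η)) n 0 0 := by
    funext η
    exact Z_eq lam h s η n
  rw [h1]
  exact (measurable_Vk n 0 0).const_mul _

lemma abs_log_Z_le (lam h s : ℝ) (η : ℕ → ℝ) (n : ℕ) :
    |Real.log (Z lam h s n η)| ≤ ∑ i ∈ Finset.Icc 1 n, (|lam * (1 + s * η i)| + |h|) := by
  set B := ∑ i ∈ Finset.Icc 1 n, (|lam * (1 + s * η i)| + |h|) with hB
  have h1 : ∀ ε : Fin n → Bool, |ham lam h s η n (walk ε)| ≤ B := by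
    intro ε
    unfold ham
    refine (Finset.abs_sum_le_sum_abs _ _).trans (Finset.sum_le_sum fun i _ => ?_)
    refine (abs_add_le _ _).trans (add_le_add ?_ ?_)
    · rw [abs_mul]
      split_ifs
      · simp
      · rw [abs_zero, mul_zero]
        exact abs_nonneg _
    · rw [abs_mul]
      unfold edgeSign
      split_ifs
      · simp
      · simp
  have hcard : ∑ _ε : Fin n → Bool, (1 : ℝ) = 2 ^ n := by
    simp [Finset.card_univ]
  have h2 : Z lam h s n η ≤ Real.exp B := by
    unfold Z
    rw [div_le_iff₀ (by positivity), ← hcard, Finset.mul_sum]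
    apply Finset.sum_le_sum
    intro ε _
    rw [mul_one]
    exact Real.exp_le_exp.2 (abs_le.1 (h1 ε)).2
  have h3 : Real.exp (-B) ≤ Z lam h s n η := by
    unfold Z
    rw [le_div_iff₀ (by positivity), ← hcard, Finset.mul_sum]
    apply Finset.sum_le_sum
    intro ε _
    rw [mul_one]
    exact Real.exp_le_exp.2 (abs_le.1 (h1 ε)).1
  have hZ := Z_pos lam h s η n
  rw [abs_le]
  constructor
  · have := Real.log_le_log (Real.exp_pos _) h3
    rwa [Real.log_exp] at this
  · have := Real.log_le_log hZ h2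
    rwa [Real.log_exp] at this

lemma log_Z_integrable (hν : Integrable (fun u : ℝ => u) ν) (lam h s : ℝ) (n : ℕ) :
    Integrable (fun η => Real.log (Z lam h s n η)) (disorder ν) := by
  have hg : Measurable fun u : ℝ => |lam * (1 + s * u)| + |h| := by fun_prop
  have hgi : Integrable (fun u : ℝ => |lam * (1 + s * u)| + |h|) ν := by
    have h1 : Integrable (fun u : ℝ => lam * (1 + s * u)) ν :=
      ((integrable_const _).add (hν.const_mul s)).const_mul lam
    exact h1.abs.add (integrable_const _)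
  have h2 : Integrable (fun η : ℕ → ℝ => ∑ i ∈ Finset.Icc 1 n, (|lam * (1 + s * η i)| + |h|))
      (disorder ν) := integrable_finsetSum _ fun i _ => integrable_coord' ν hg i hgi
  apply h2.mono (measurable_Z lam h s n).log.aestronglyMeasurable
  filter_upwards with η
  rw [Real.norm_eq_abs, Real.norm_eq_abs]
  exact (abs_log_Z_le lam h s η n).trans (le_abs_self _)

lemma free_energy_mean (hν : Integrable (fun u : ℝ => u) ν) {s : ℝ} {f : ℝ → ℝ → ℝ}
    (hf : IsFreeEnergy ν s f) {lam h : ℝ} (hlam : 0 ≤ lam) (hh : 0 ≤ h) :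
    Tendsto (fun n : ℕ => (n : ℝ)⁻¹ * ∫ η, Real.log (Z lam h s n η) ∂(disorder ν)) atTop
      (𝓝 (f lam h)) := by
  have hg : Measurable fun u : ℝ => |lam * (1 + s * u)| + |h| := by fun_prop
  have hgi : Integrable (fun u : ℝ => |lam * (1 + s * u)| + |h|) ν := by
    have h1 : Integrable (fun u : ℝ => lam * (1 + s * u)) ν :=
      ((integrable_const _).add (hν.const_mul s)).const_mul lam
    exact h1.abs.add (integrable_const _)
  have h1 := mean_tendsto ν (Y := fun n η => (n : ℝ)⁻¹ * Real.log (Z lam h s n η))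
    (g := fun u => |lam * (1 + s * u)| + |h|) (y := f lam h)
    (fun n => (measurable_Z lam h s n).log.const_mul _) hg hgi
    (fun n η => by
      rw [abs_mul, abs_of_nonneg (by positivity : (0 : ℝ) ≤ (n : ℝ)⁻¹)]
      exact mul_le_mul_of_nonneg_left (abs_log_Z_le lam h s η n) (by positivity))
    (hf lam h hlam hh)
  refine h1.congr fun n => ?_
  rw [integral_const_mul]

lemma Vk_lower {q : ℝ} (hq : 0 ≤ q) {x : ℕ → ℝ} (k : ℕ) : ∀ (t : ℕ) (y : ℤ), 1 ≤ y →
    (y : ℝ) / (y + k) ≤ Vk q (As x) k t y := by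
  induction k with
  | zero =>
    intro t y hy
    have hy' : (1 : ℝ) ≤ y := by exact_mod_cast hy
    change _ ≤ (1 : ℝ)
    rw [Nat.cast_zero, add_zero, div_self (by linarith)]
  | succ k ih =>
    intro t y hy
    have hy' : (1 : ℝ) ≤ y := by exact_mod_cast hy
    have hk : (0 : ℝ) ≤ k := Nat.cast_nonneg k
    have hn : ∀ z, 0 ≤ Vk q (As x) k (t + 1) z := Vk_nonneg hq (fun t z => (As_pos x t z).le) k _
    rw [Vk_succ, if_pos (by omega : (0 : ℤ) ≤ y), if_pos hy, As_ne x (t + 1) (by omega : y + 1 ≠ 0)]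
    have h1 := ih (t + 1) (y + 1) (by omega)
    push_cast at h1 ⊢
    rcases eq_or_lt_of_le hy with h0 | h0
    · have e : (y : ℝ) = 1 := by rw [← h0]; norm_num
      have h2 := mul_nonneg (As_pos x (t + 1) (y - 1)).le (hn (y - 1))
      rw [e] at h1 ⊢
      have h3 : (1 : ℝ) / (1 + (k + 1)) = (1 + 1) / (1 + 1 + k) / 2 := by
        field_simp
        ring
      rw [h3]
      linarith
    · rw [As_ne x (t + 1) (by omega : y - 1 ≠ 0)]
      have h2 := ih (t + 1) (y - 1) (by omega)
      push_cast at h2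
      have hy2 : (1 : ℝ) < y := by exact_mod_cast h0
      have h3 : ((y : ℝ) - 1) / (y + 1 + k) ≤ (y - 1) / (y - 1 + k) :=
        div_le_div_of_nonneg_left (by linarith) (by linarith) (by linarith)
      have h4 : (y : ℝ) / (y + (k + 1)) = (((y : ℝ) + 1) / (y + 1 + k) + (y - 1) / (y + 1 + k)) / 2 := by
        field_simp
        ring
      rw [h4]
      linarith

lemma Z_lower (lam h s : ℝ) (η : ℕ → ℝ) {n : ℕ} (hn : 1 ≤ n) :
    h * n - Real.log (2 * n) ≤ Real.log (Z lam h s n η) := by
  have hn' : (0 : ℝ) < n := by exact_mod_cast hn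
  rw [Z_eq]
  set q := Real.exp (-2 * h)
  have hq : 0 < q := Real.exp_pos _
  obtain ⟨k, rfl⟩ : ∃ k, n = k + 1 := ⟨n - 1, by omega⟩
  have h1 : 1 / (2 * ((k + 1 : ℕ) : ℝ)) ≤ Vk q (As (xr lam s η)) (k + 1) 0 0 := by
    rw [Vk_succ]
    norm_num
    rw [As_ne _ (1) (by norm_num : (1 : ℤ) ≠ 0)]
    have h2 := Vk_lower (x := xr lam s η) hq.le k 1 1 le_rfl
    have h3 := mul_nonneg (As_pos (xr lam s η) 1 (-1)).le
      (Vk_nonneg hq.le (fun t z => (As_pos (xr lam s η) t z).le) k 1 (-1))
    have h4 := mul_nonneg hq.le h3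
    push_cast at h2
    have h5 : ((k : ℝ) + 1)⁻¹ * (1 / 2) = 1 / (1 + (k : ℝ)) / 2 := by
      field_simp
      ring
    rw [h5]
    linarith
  have h2 : 0 < 1 / (2 * ((k + 1 : ℕ) : ℝ)) := by positivity
  rw [Real.log_mul (Real.exp_pos _).ne' (h2.trans_le h1).ne', Real.log_exp]
  have h3 := Real.log_le_log h2 h1
  rw [one_div, Real.log_inv] at h3
  linarith

lemma free_energy_ge {s : ℝ} {f : ℝ → ℝ → ℝ} (hf : IsFreeEnergy ν s f) {lam h : ℝ}
    (hlam : 0 ≤ lam) (hh : 0 ≤ h) : h ≤ f lam h := by
  obtain ⟨η, hη⟩ := (hf lam h hlam hh).exists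
  have h1 : Tendsto (fun n : ℕ => h - (n : ℝ)⁻¹ * Real.log (2 * n)) atTop (𝓝 (h - 0)) := by
    apply tendsto_const_nhds.sub
    have h2 : Tendsto (fun x : ℝ => Real.log x / x) atTop (𝓝 0) :=
      Real.isLittleO_log_id_atTop.tendsto_div_nhds_zero
    have h3 : Tendsto (fun n : ℕ => (2 * (n : ℝ))) atTop atTop :=
      tendsto_natCast_atTop_atTop.const_mul_atTop two_pos
    have h4 := (h2.comp h3).const_mul 2
    rw [mul_zero] at h4
    refine h4.congr' ?_
    filter_upwards [eventually_gt_atTop 0] with n hn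
    have hn' : (0 : ℝ) < n := by exact_mod_cast hn
    simp only [Function.comp_apply]
    field_simp
  rw [sub_zero] at h1
  apply le_of_tendsto_of_tendsto h1 hη
  filter_upwards [eventually_ge_atTop 1] with n hn
  have hn' : (0 : ℝ) < n := by exact_mod_cast hn
  have h2 := mul_le_mul_of_nonneg_left (Z_lower lam h s η hn) (by positivity : (0 : ℝ) ≤ (n : ℝ)⁻¹)
  refine le_trans (le_of_eq ?_) h2
  field_simp

end Pool.Agent.R973.Pin
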