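import Pool.Agent.R973.Pin.Fin

/-!
# The critical curve is infinite at the endpoint
-/

set_option autoImplicit false

open MeasureTheory ProbabilityTheory Filter Topology

namespace Pool.Agent.R973.Pin

open Pool.Agent.R973.Pinning (disorder Z ham walk edgeSign IsFreeEnergy hc)
open Pool.Agent.R973.Cp (Dep)

variable (ν : Measure ℝ) [IsProbabilityMeasure ν]

/-- Finite volume comparison. -/
lemma compare (hν : Integrable (fun u : ℝ => u) ν) {lam a Lm h s : ℝ} (hlam : 0 < lam) (ha : 0 < a)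
    (hLm : lam + a ≤ Lm) (hh : 0 ≤ h)
    (h1 : Integrable (phi1 Lm s) ν) (h2 : Integrable (phi2 Lm s) ν) (h3 : Integrable (psi Lm s) ν)
    (hsmall : a / lam * (((∫ u, phi1 Lm s u ∂ν) / (∫ u, psi Lm s u ∂ν)) * (4 * (∫ u, phi2 Lm s u ∂ν)
        / (Real.exp (-2 * (h + 1)) ^ 2 * ∫ u, psi Lm s u ∂ν))) ≤ 2) {n : ℕ} (hn : 2 ≤ n) :
    ∫ η, Real.log (Z (lam + a) (h + 1) s n η) ∂(disorder ν) - n
      - a / lam * (2 * ∫ u, phi1 Lm s u ∂ν)
      ≤ ∫ η, Real.log (Z lam h s n η) ∂(disorder ν) := by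
  set q := Real.exp (-2 * (h + 1)) with hqd
  have hq : 0 < q := Real.exp_pos _
  have hq1 : q ≤ 1 := Real.exp_le_one_iff.2 (by linarith)
  set L := lam + a with hLd
  have hL : 0 < L := by positivity
  set M1 := ∫ u, phi1 Lm s u ∂ν with hM1
  have hM10 : 0 ≤ M1 := integral_nonneg fun u => by
    unfold phi1
    exact mul_nonneg (le_max_right _ _) (Real.exp_pos _).le
  set C := (M1 / (∫ u, psi Lm s u ∂ν)) * (4 * (∫ u, phi2 Lm s u ∂ν)
        / (q ^ 2 * ∫ u, psi Lm s u ∂ν)) with hC
  have hmaxi : ∀ i, 1 ≤ i → i ≤ n →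
      Integrable (fun η => max (xr L s η i) 0 * pc q (xr L s η) n i) (disorder ν) ∧
      ∫ η, max (xr L s η i) 0 * pc q (xr L s η) n i ∂(disorder ν) ≤ M1 := by
    intro i hi hin
    have e1 : Integrable (fun η : ℕ → ℝ => phi1 Lm s (η i)) (disorder ν) :=
      integrable_coord' ν (measurable_phi1 Lm s) i h1
    have hm : Measurable fun η : ℕ → ℝ => max (xr L s η i) 0 * pc q (xr L s η) n i :=
      ((measurable_xr i).max measurable_const).mul (measurable_pc n i)
    have hb : ∀ η : ℕ → ℝ, 0 ≤ max (xr L s η i) 0 * pc q (xr L s η) n i ∧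
        max (xr L s η i) 0 * pc q (xr L s η) n i ≤ phi1 Lm s (η i) := by
      intro η
      obtain ⟨_, b, c, _⟩ := pc_le (x := xr L s η) hq hq1 hi hin
      have e2 : 0 ≤ max (xr L s η i) 0 := le_max_right _ _
      exact ⟨mul_nonneg e2 c, (mul_le_of_le_one_right e2 b).trans (unif (u := η i) hL hLm).2.2.2⟩
    have hint : Integrable (fun η => max (xr L s η i) 0 * pc q (xr L s η) n i) (disorder ν) := by
      apply e1.mono hm.aestronglyMeasurable
      filter_upwards with η
      rw [Real.norm_eq_abs, Real.norm_eq_abs, abs_of_nonneg (hb η).1]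
      exact (hb η).2.trans (le_abs_self _)
    refine ⟨hint, ?_⟩
    rw [hM1, ← int_coord' ν (measurable_phi1 Lm s) i]
    exact integral_mono hint e1 fun η => (hb η).2
  have hrci : ∀ i, 1 ≤ i → i + 2 ≤ n →
      Integrable (fun η => rc q (xr L s η) n i) (disorder ν) ∧
      0 ≤ ∫ η, rc q (xr L s η) n i ∂(disorder ν) := by
    intro i hi hin
    constructor
    · apply Integrable.of_bound (measurable_rc n i).aestronglyMeasurable 1
      filter_upwards with η
      obtain ⟨_, b, c, _, _⟩ := rc_ge (x := xr L s η) hq hq1 hi hin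
      rw [Real.norm_eq_abs, abs_of_nonneg b]
      exact c
    · exact integral_nonneg fun η => (rc_ge (x := xr L s η) hq hq1 hi hin).2.1
  -- integrate the pointwise inequality
  have hpt : ∀ η : ℕ → ℝ, Real.log (Z L (h + 1) s n η) - n
      - a / L * ∑ i ∈ Finset.Icc 1 n, max (xr L s η i) 0 * pc q (xr L s η) n i
      + 2 * ∑ i ∈ Finset.Icc 1 (n - 2), rc q (xr L s η) n i ≤ Real.log (Z lam h s n η) :=
    fun η => log_Z_ge hlam ha η n rfl rfl
  have hZ1 := log_Z_integrable ν hν L (h + 1) s n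
  have hZ2 := log_Z_integrable ν hν lam h s n
  have hs1 : Integrable (fun η => ∑ i ∈ Finset.Icc 1 n, max (xr L s η i) 0 * pc q (xr L s η) n i)
      (disorder ν) := integrable_finsetSum _ fun i hi => by
    rw [Finset.mem_Icc] at hi
    exact (hmaxi i hi.1 hi.2).1
  have hs2 : Integrable (fun η => ∑ i ∈ Finset.Icc 1 (n - 2), rc q (xr L s η) n i)
      (disorder ν) := integrable_finsetSum _ fun i hi => by
    rw [Finset.mem_Icc] at hi
    exact (hrci i hi.1 (by omega)).1
  have i1 : Integrable (fun η => Real.log (Z L (h + 1) s n η) - n) (disorder ν) :=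
    hZ1.sub (integrable_const _)
  have i2 : Integrable (fun η => a / L * ∑ i ∈ Finset.Icc 1 n, max (xr L s η i) 0
      * pc q (xr L s η) n i) (disorder ν) := hs1.const_mul _
  have i3 : Integrable (fun η => Real.log (Z L (h + 1) s n η) - n
      - a / L * ∑ i ∈ Finset.Icc 1 n, max (xr L s η i) 0 * pc q (xr L s η) n i) (disorder ν) :=
    i1.sub i2
  have i4 : Integrable (fun η => 2 * ∑ i ∈ Finset.Icc 1 (n - 2), rc q (xr L s η) n i)
      (disorder ν) := hs2.const_mul _
  have i5 : Integrable (fun η => Real.log (Z L (h + 1) s n η) - n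
      - a / L * ∑ i ∈ Finset.Icc 1 n, max (xr L s η i) 0 * pc q (xr L s η) n i
      + 2 * ∑ i ∈ Finset.Icc 1 (n - 2), rc q (xr L s η) n i) (disorder ν) := i3.add i4
  have hI := integral_mono i5 hZ2 hpt
  rw [integral_add i3 i4, integral_sub i1 i2, integral_sub hZ1 (integrable_const _),
    integral_const_mul, integral_const_mul,
    integral_finsetSum _ fun i hi => (hmaxi i (Finset.mem_Icc.1 hi).1 (Finset.mem_Icc.1 hi).2).1,
    integral_finsetSum _ fun i hi => (hrci i (Finset.mem_Icc.1 hi).1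
      (by have := (Finset.mem_Icc.1 hi).2; omega)).1] at hI
  simp only [integral_const, probReal_univ, one_smul] at hI
  -- bound the contact term
  set S2 := ∑ i ∈ Finset.Icc 1 (n - 2), ∫ η, rc q (xr L s η) n i ∂(disorder ν) with hS2
  have hS20 : 0 ≤ S2 := Finset.sum_nonneg fun i hi =>
    (hrci i (Finset.mem_Icc.1 hi).1 (by have := (Finset.mem_Icc.1 hi).2; omega)).2
  have hS1 : ∑ i ∈ Finset.Icc 1 n, ∫ η, max (xr L s η i) 0 * pc q (xr L s η) n i ∂(disorder ν)
      ≤ C * S2 + 2 * M1 := by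
    obtain ⟨m, rfl⟩ : ∃ m, n = m + 2 := ⟨n - 2, by omega⟩
    rw [Finset.sum_Icc_succ_top (by omega), Finset.sum_Icc_succ_top (by omega)]
    have e1 := (hmaxi (m + 1) (by omega) (by omega)).2
    have e2 := (hmaxi (m + 1 + 1) (by omega) (by omega)).2
    have e3 : ∑ i ∈ Finset.Icc 1 m, ∫ η, max (xr L s η i) 0 * pc q (xr L s η) (m + 2) i
        ∂(disorder ν) ≤ C * S2 := by
      rw [hS2, Nat.add_sub_cancel, Finset.mul_sum]
      apply Finset.sum_le_sum
      intro i hi
      rw [Finset.mem_Icc] at hi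
      exact contact_le ν hq hq1 hL hLm h1 h2 h3 hi.1 (by omega)
    linarith
  have hψ := psi_int_pos ν Lm s h3
  have hM20 : 0 ≤ ∫ u, phi2 Lm s u ∂ν := integral_nonneg fun u => by
    unfold phi2
    positivity
  have hC0 : 0 ≤ C := by
    rw [hC]
    positivity
  have haL : a / L ≤ a / lam := by
    apply div_le_div_of_nonneg_left ha.le hlam
    linarith
  have haL0 : 0 ≤ a / L := by positivity
  have h5 : a / L * ∑ i ∈ Finset.Icc 1 n, ∫ η, max (xr L s η i) 0 * pc q (xr L s η) n i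
      ∂(disorder ν) ≤ 2 * S2 + a / lam * (2 * M1) := by
    calc _ ≤ a / L * (C * S2 + 2 * M1) := mul_le_mul_of_nonneg_left hS1 haL0
      _ ≤ a / lam * (C * S2 + 2 * M1) := mul_le_mul_of_nonneg_right haL (by positivity)
      _ = (a / lam * C) * S2 + a / lam * (2 * M1) := by ring
      _ ≤ 2 * S2 + a / lam * (2 * M1) := by
          have := mul_le_mul_of_nonneg_right hsmall hS20
          linarith
  linarith

/-- **Localization at the endpoint.** -/
theorem endpoint {s : ℝ} (hs : 0 ≤ s) {f : ℝ → ℝ → ℝ} (hf : IsFreeEnergy ν s f) {lc : ℝ}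
    (hlc : 0 < lc) {t0 : ℝ} (ht0 : lc * s < t0) (hν : Integrable (fun u : ℝ => u) ν)
    (hexp : Integrable (fun u : ℝ => Real.exp (t0 * u)) ν)
    (hthr : ∀ lam, lc < lam → ∀ h, 0 ≤ h → f lam h ≠ h) {h : ℝ} (hh : 0 ≤ h) : h < f lc h := by
  -- constants
  set d := t0 - lc * s with hd
  have hd0 : 0 < d := by rw [hd]; linarith
  set a1 := min 1 (d / (2 * (s + 1))) with ha1
  have ha10 : 0 < a1 := lt_min one_pos (by positivity)
  set ε := d / (2 * ((lc + 1) * s + 1)) with hε
  have hε0 : 0 < ε := by positivity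
  have hbound : (1 + ε) * (lc + a1) * s ≤ t0 := by
    have e1 : a1 * s ≤ d / 2 := by
      have e2 : a1 ≤ d / (2 * (s + 1)) := min_le_right _ _
      have e3 : a1 * s ≤ d / (2 * (s + 1)) * s := mul_le_mul_of_nonneg_right e2 hs
      refine e3.trans ?_
      rw [div_mul_eq_mul_div, div_le_div_iff₀ (by positivity) (by norm_num)]
      nlinarith
    have e4 : ε * ((lc + a1) * s) ≤ d / 2 := by
      have e5 : (lc + a1) * s ≤ (lc + 1) * s :=
        mul_le_mul_of_nonneg_right (by linarith [min_le_left 1 (d / (2 * (s + 1)))]) hs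
      refine (mul_le_mul_of_nonneg_left e5 hε0.le).trans ?_
      rw [hε, div_mul_eq_mul_div, div_le_div_iff₀ (by positivity) (by norm_num)]
      have : 0 ≤ (lc + 1) * s := by positivity
      nlinarith
    have e6 : (1 + ε) * (lc + a1) * s = lc * s + a1 * s + ε * ((lc + a1) * s) := by ring
    rw [e6]
    linarith
  obtain ⟨h1, h2, h3⟩ := phi_int ν (Lm := lc + a1) (by positivity) hs hε0 hbound hexp
  set C := (((∫ u, phi1 (lc + a1) s u ∂ν) / (∫ u, psi (lc + a1) s u ∂ν))
        * (4 * (∫ u, phi2 (lc + a1) s u ∂ν)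
        / (Real.exp (-2 * (h + 1)) ^ 2 * ∫ u, psi (lc + a1) s u ∂ν))) with hC
  have hψ := psi_int_pos ν (lc + a1) s h3
  have hM10 : 0 ≤ ∫ u, phi1 (lc + a1) s u ∂ν := integral_nonneg fun u => by
    unfold phi1
    exact mul_nonneg (le_max_right _ _) (Real.exp_pos _).le
  have hM20 : 0 ≤ ∫ u, phi2 (lc + a1) s u ∂ν := integral_nonneg fun u => by
    unfold phi2
    positivity
  have hC0 : 0 ≤ C := by rw [hC]; positivity
  set a := min a1 (lc / (C + 1)) with ha
  have ha0 : 0 < a := lt_min ha10 (by positivity)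
  have hsmall : a / lc * C ≤ 2 := by
    have e1 : a ≤ lc / (C + 1) := min_le_right _ _
    have e2 : a / lc ≤ 1 / (C + 1) := by
      rw [div_le_div_iff₀ hlc (by positivity)]
      rw [le_div_iff₀ (by positivity)] at e1
      linarith
    calc a / lc * C ≤ 1 / (C + 1) * C := mul_le_mul_of_nonneg_right e2 hC0
      _ ≤ 2 := by
          rw [div_mul_eq_mul_div, div_le_iff₀ (by positivity)]
          linarith
  have hcmp : ∀ n : ℕ, 2 ≤ n → ∫ η, Real.log (Z (lc + a) (h + 1) s n η) ∂(disorder ν) - n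
      - a / lc * (2 * ∫ u, phi1 (lc + a1) s u ∂ν)
      ≤ ∫ η, Real.log (Z lc h s n η) ∂(disorder ν) := fun n hn =>
    compare ν hν hlc ha0 (by linarith [min_le_left a1 (lc / (C + 1))]) hh h1 h2 h3 hsmall hn
  -- pass to the limit
  have hlim1 := free_energy_mean ν hν hf (lam := lc + a) (h := h + 1) (by positivity) (by positivity)
  have hlim2 := free_energy_mean ν hν hf (lam := lc) (h := h) hlc.le hh
  have hlim3 : Tendsto (fun n : ℕ => (n : ℝ)⁻¹
      * ∫ η, Real.log (Z (lc + a) (h + 1) s n η) ∂(disorder ν) - 1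
      - (n : ℝ)⁻¹ * (a / lc * (2 * ∫ u, phi1 (lc + a1) s u ∂ν))) atTop
      (𝓝 (f (lc + a) (h + 1) - 1 - 0 * (a / lc * (2 * ∫ u, phi1 (lc + a1) s u ∂ν)))) := by
    exact (hlim1.sub_const 1).sub
      ((tendsto_inv_atTop_zero.comp tendsto_natCast_atTop_atTop).mul_const _)
  have hle : f (lc + a) (h + 1) - 1 - 0 * (a / lc * (2 * ∫ u, phi1 (lc + a1) s u ∂ν))
      ≤ f lc h := by
    apply le_of_tendsto_of_tendsto hlim3 hlim2
    filter_upwards [eventually_ge_atTop 2] with n hn
    have hn' : (0 : ℝ) < n := by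
      have : 0 < n := by omega
      exact_mod_cast this
    have h4 := mul_le_mul_of_nonneg_left (hcmp n hn) (by positivity : (0 : ℝ) ≤ (n : ℝ)⁻¹)
    refine le_trans (le_of_eq ?_) h4
    field_simp
  have h5 := free_energy_ge ν hf (lam := lc + a) (h := h + 1) (by positivity) (by positivity)
  have h6 := hthr (lc + a) (by linarith) (h + 1) (by positivity)
  have h7 : h + 1 < f (lc + a) (h + 1) := lt_of_le_of_ne h5 (Ne.symm h6)
  linarith

end Pool.Agent.R973.Pin
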