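import Pool.Agent.R973.Pin.Jen
import Pool.Agent.R973.Cp.Prob

/-!
# Averages over the disorder
-/

set_option autoImplicit false

open MeasureTheory ProbabilityTheory

namespace Pool.Agent.R973.Pin

open Pool.Agent.R973.Pinning (disorder)
open Pool.Agent.R973.Cp (Dep)

variable {q : ℝ} {L s : ℝ}

lemma Vk_mono (hq : 0 ≤ q) {A A' : ℕ → ℤ → ℝ} (hA : ∀ j y, 0 ≤ A j y) (hAA : ∀ j y, A j y ≤ A' j y)
    (k : ℕ) : ∀ t y, Vk q A k t y ≤ Vk q A' k t y := by
  induction k with
  | zero => intro t y; exact le_rfl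
  | succ k ih =>
    intro t y
    exact st_mono hq (fun z => mul_le_mul (hAA _ _) (ih _ _) (Vk_nonneg hq hA _ _ _)
      ((hA _ _).trans (hAA _ _))) y

lemma As_congr {x x' : ℕ → ℝ} {j : ℕ} (h : 1 ≤ j → x j = x' j) : As x j = As x' j := by
  funext y
  unfold As
  by_cases hj : 1 ≤ j ∧ y = 0
  · rw [if_pos hj, if_pos hj, h hj.1]
  · rw [if_neg hj, if_neg hj]

lemma Yw_congr {x x' : ℕ → ℝ} {n i : ℕ} (hin : i ≤ n)
    (h : ∀ j, 1 ≤ j → j ≤ n → j ≠ i → x j = x' j) : Yw q x n i = Yw q x' n i := by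
  unfold Yw
  rw [Pf_congr (A' := As x') i _ fun j hj => As_congr fun h1 => h j h1 (by omega) (by omega),
    Vk_congr (A' := As x') (n - i) i 0 fun j h1 h2 => As_congr fun h3 => h j h3 (by omega) (by omega)]

lemma Nw_congr {x x' : ℕ → ℝ} {n i : ℕ} (hin : i ≤ n)
    (h : ∀ j, 1 ≤ j → j ≤ n → j ≠ i → x j = x' j) : Nw q x n i = Nw q x' n i := by
  unfold Nw
  rw [Pf_congr (A' := As x') i _ fun j hj => As_congr fun h1 => h j h1 (by omega) (by omega)]
  congr 1
  funext z
  rw [Vk_congr (A' := As x') (n - i) i z fun j h1 h2 => As_congr fun h3 =>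
    h j h3 (by omega) (by omega)]

lemma Uw_congr {x x' : ℕ → ℝ} {n i : ℕ} (hi : 1 ≤ i) (hin : i + 2 ≤ n)
    (h : ∀ j, 1 ≤ j → j ≤ n → j ≠ i + 2 → x j = x' j) : Uw q x n i = Uw q x' n i := by
  unfold Uw
  rw [Pf_congr (A' := As x') i _ fun j hj => As_congr fun h1 => h j h1 (by omega) (by omega),
    Vk_congr (A' := As x') (n - i - 2) (i + 2) 0 fun j h1 h2 => As_congr fun h3 =>
      h j h3 (by omega) (by omega), h i hi (by omega) (by omega)]

lemma measurable_As (j : ℕ) (y : ℤ) : Measurable fun η : ℕ → ℝ => As (xr L s η) j y := by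
  unfold As xr
  by_cases hj : 1 ≤ j ∧ y = 0
  · simp only [if_pos hj]
    fun_prop
  · simp only [if_neg hj]
    fun_prop

lemma measurable_st {φ : (ℕ → ℝ) → ℤ → ℝ} (h : ∀ z, Measurable fun η => φ η z) (y : ℤ) :
    Measurable fun η => st q (φ η) y := by
  unfold st
  exact (((h (y + 1)).const_mul _).add ((h (y - 1)).const_mul _)).div_const 2

lemma measurable_Vk (k : ℕ) : ∀ (t : ℕ) (y : ℤ),
    Measurable fun η : ℕ → ℝ => Vk q (As (xr L s η)) k t y := by
  induction k with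
  | zero => intro t y; exact measurable_const
  | succ k ih =>
    intro t y
    exact measurable_st (fun z => (measurable_As (t + 1) z).mul (ih (t + 1) z)) y

lemma measurable_Pf (n : ℕ) : ∀ {φ : (ℕ → ℝ) → ℤ → ℝ}, (∀ z, Measurable fun η => φ η z) →
    Measurable fun η : ℕ → ℝ => Pf q (As (xr L s η)) n (φ η) := by
  induction n with
  | zero => intro φ h; exact h 0
  | succ n ih =>
    intro φ h
    exact ih fun z => (measurable_As n z).mul (measurable_st h z)

lemma measurable_Yw (n i : ℕ) : Measurable fun η : ℕ → ℝ => Yw q (xr L s η) n i := by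
  unfold Yw
  have h1 : Measurable fun η : ℕ → ℝ => Pf q (As (xr L s η)) i (fun z => if z = 0 then 1 else 0) :=
    measurable_Pf (φ := fun _ z => if z = 0 then 1 else 0) i fun z => measurable_const
  exact h1.mul (measurable_Vk _ _ _)

lemma measurable_Nw (n i : ℕ) : Measurable fun η : ℕ → ℝ => Nw q (xr L s η) n i := by
  unfold Nw
  apply measurable_Pf
  intro z
  split_ifs
  · exact measurable_const
  · exact measurable_Vk _ _ _

lemma measurable_xr (i : ℕ) : Measurable fun η : ℕ → ℝ => xr L s η i := by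
  unfold xr
  fun_prop

lemma measurable_Uw (n i : ℕ) : Measurable fun η : ℕ → ℝ => Uw q (xr L s η) n i := by
  unfold Uw
  have h1 : Measurable fun η : ℕ → ℝ => Pf q (As (xr L s η)) i (fun z => if z = 0 then 1 else 0) :=
    measurable_Pf (φ := fun _ z => if z = 0 then 1 else 0) i fun z => measurable_const
  exact ((measurable_xr i).exp.mul h1).mul (measurable_Vk _ _ _)

lemma measurable_pc (n i : ℕ) : Measurable fun η : ℕ → ℝ => pc q (xr L s η) n i := by
  unfold pc
  exact ((measurable_xr i).exp.mul (measurable_Yw n i)).div (measurable_Vk _ _ _)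

lemma measurable_rc (n i : ℕ) : Measurable fun η : ℕ → ℝ => rc q (xr L s η) n i := by
  unfold rc
  exact (((measurable_xr (i + 2)).exp.mul (measurable_Uw n i)).const_mul _).div (measurable_Vk _ _ _)

section bounds

variable {x : ℕ → ℝ} {n i : ℕ}

lemma Yw_nonneg (hq : 0 ≤ q) : 0 ≤ Yw q x n i := by
  unfold Yw
  exact mul_nonneg (Pf_nonneg hq (fun t z => (As_pos x t z).le) i fun z => by split_ifs <;> norm_num)
    (Vk_nonneg hq (fun t z => (As_pos x t z).le) _ _ _)

lemma Uw_nonneg (hq : 0 ≤ q) : 0 ≤ Uw q x n i := by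
  unfold Uw
  exact mul_nonneg (mul_nonneg (Real.exp_pos _).le
    (Pf_nonneg hq (fun t z => (As_pos x t z).le) i fun z => by split_ifs <;> norm_num))
    (Vk_nonneg hq (fun t z => (As_pos x t z).le) _ _ _)

lemma Nw_pos (hq : 0 < q) (hq1 : q ≤ 1) (hi : 1 ≤ i) (hin : i ≤ n) : 0 < Nw q x n i := by
  have h1 := total_split (q := q) (x := x) hi hin
  have h2 := Yw_le (x := x) hq.le hq1 n hi
  have h3 : 0 < Vk q (As x) n 0 0 := Vk_pos hq (As_pos x) n 0 0
  have h4 := Real.exp_pos (x i)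
  by_contra hcon
  rw [not_lt] at hcon
  have h5 : Yw q x n i ≤ 0 := by linarith
  have h6 := mul_nonpos_of_nonneg_of_nonpos h4.le h5
  linarith

lemma pc_le (hq : 0 < q) (hq1 : q ≤ 1) (hi : 1 ≤ i) (hin : i ≤ n) :
    pc q x n i ≤ Yw q x n i / Nw q x n i * Real.exp (x i) ∧ pc q x n i ≤ 1 ∧ 0 ≤ pc q x n i ∧
    Yw q x n i / Nw q x n i * (Real.exp (x i) / (1 + 4 * Real.exp (x i))) ≤ pc q x n i := by
  have h1 := total_split (q := q) (x := x) hi hin
  have hN := Nw_pos (x := x) hq hq1 hi hin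
  have hY := Yw_nonneg (x := x) (n := n) (i := i) hq.le
  have hY4 := Yw_le (x := x) hq.le hq1 n hi
  have hV : 0 < Vk q (As x) n 0 0 := Vk_pos hq (As_pos x) n 0 0
  have he := Real.exp_pos (x i)
  have heY := mul_nonneg he.le hY
  unfold pc
  refine ⟨?_, ?_, by positivity, ?_⟩
  · rw [div_le_iff₀ hV]
    rw [div_mul_eq_mul_div, div_mul_eq_mul_div, le_div_iff₀ hN, h1]
    have := mul_nonneg heY heY
    nlinarith
  · rw [div_le_one hV]
    linarith
  · rw [div_mul_div_comm, div_le_div_iff₀ (by positivity) hV, h1]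
    have h5 : Nw q x n i + Real.exp (x i) * Yw q x n i ≤ Nw q x n i * (1 + 4 * Real.exp (x i)) := by
      nlinarith
    calc _ = (Real.exp (x i) * Yw q x n i) * (Nw q x n i + Real.exp (x i) * Yw q x n i) := by ring
      _ ≤ (Real.exp (x i) * Yw q x n i) * (Nw q x n i * (1 + 4 * Real.exp (x i))) :=
          mul_le_mul_of_nonneg_left h5 heY

lemma Uw_le (hq : 0 < q) (hi : 1 ≤ i) (hin : i + 2 ≤ n) :
    q ^ 2 / 4 * Uw q x n i ≤ Yw q x n (i + 2) := by
  have h1 := Vk_A3 (q := q) (x := x) hi hin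
  have h2 := Vk_A1 (q := q) (x := x) (i := i + 2) (by omega) hin
  have h3 : Vk q (A3 x i) n 0 0 ≤ Vk q (A1 x (i + 2)) n 0 0 := by
    apply Vk_mono hq.le
    · intro j y
      unfold A3
      apply mul_nonneg _ (As_pos x j y).le
      split_ifs <;> norm_num
    · intro j y
      unfold A3 A1
      apply mul_le_mul_of_nonneg_right _ (As_pos x j y).le
      by_cases h : j = i + 2 ∧ y ≠ 0
      · rw [if_pos h, if_pos (Or.inr (Or.inr h))]
      · rw [if_neg h]
        split_ifs <;> norm_num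
  rw [h1, h2] at h3
  have he := Real.exp_pos (x (i + 2))
  have h4 : Real.exp (x (i + 2)) * (q ^ 2 / 4 * Uw q x n i)
      ≤ Real.exp (x (i + 2)) * Yw q x n (i + 2) := by linarith
  exact le_of_mul_le_mul_left h4 he

lemma rc_ge (hq : 0 < q) (hq1 : q ≤ 1) (hi : 1 ≤ i) (hin : i + 2 ≤ n) :
    pc q x n i ≤ Uw q x n i / Nw q x n (i + 2) * (2 + Real.exp (x (i + 2)) / 2) ∧
    0 ≤ rc q x n i ∧ rc q x n i ≤ 1 ∧
    Uw q x n i / Nw q x n (i + 2) * (q ^ 2 / 4 * (Real.exp (x (i + 2)) / (1 + 4 * Real.exp (x (i + 2)))))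
      ≤ rc q x n i ∧ Uw q x n i / Nw q x n (i + 2) ≤ 16 / q ^ 2 := by
  have h1 := total_split (q := q) (x := x) (i := i + 2) (by omega) hin
  have hN := Nw_pos (x := x) hq hq1 (by omega : 1 ≤ i + 2) hin
  have hY := Yw_nonneg (x := x) (n := n) (i := i + 2) hq.le
  have hY4 := Yw_le (x := x) hq.le hq1 n (by omega : 1 ≤ i + 2)
  have hV : 0 < Vk q (As x) n 0 0 := Vk_pos hq (As_pos x) n 0 0
  have he := Real.exp_pos (x (i + 2))
  have hU := Uw_nonneg (x := x) (n := n) (i := i) hq.le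
  have hUY := Uw_le (x := x) hq hi hin
  have heY := mul_nonneg he.le hY
  refine ⟨?_, ?_, ?_, ?_, ?_⟩
  · -- p_i ≤ Q (2 + e/2)
    have h2 : Real.exp (x i) * Yw q x n i ≤ Uw q x n i * (2 + Real.exp (x (i + 2)) / 2) := by
      unfold Yw Uw
      have h3 := Vk_insert (x := x) hq.le hq1 (n - i - 2) i
      rw [show n - i - 2 + 2 = n - i by omega] at h3
      have h4 : 0 ≤ Real.exp (x i) * Pf q (As x) i (fun z => if z = 0 then 1 else 0) :=
        mul_nonneg (Real.exp_pos _).le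
          (Pf_nonneg hq.le (fun t z => (As_pos x t z).le) i fun z => by split_ifs <;> norm_num)
      have h5 := mul_le_mul_of_nonneg_left h3 h4
      linarith
    unfold pc
    rw [div_le_iff₀ hV, div_mul_eq_mul_div, div_mul_eq_mul_div, le_div_iff₀ hN, h1]
    have h6 : 0 ≤ Uw q x n i * (2 + Real.exp (x (i + 2)) / 2) := by positivity
    have h7 := mul_le_mul_of_nonneg_right h2 hN.le
    have h8 := mul_nonneg h6 heY
    linarith
  · unfold rc
    positivity
  · unfold rc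
    rw [div_le_one hV, h1]
    have h2 := mul_le_mul_of_nonneg_left hUY he.le
    linarith
  · unfold rc
    have h5 : Nw q x n (i + 2) + Real.exp (x (i + 2)) * Yw q x n (i + 2)
        ≤ Nw q x n (i + 2) * (1 + 4 * Real.exp (x (i + 2))) := by
      nlinarith
    rw [le_div_iff₀ hV, h1]
    have h6 : 0 ≤ Uw q x n i / Nw q x n (i + 2) * (q ^ 2 / 4 * (Real.exp (x (i + 2))
        / (1 + 4 * Real.exp (x (i + 2))))) := by positivity
    have h7 := mul_le_mul_of_nonneg_left h5 h6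
    refine h7.trans (le_of_eq ?_)
    field_simp
  · rw [div_le_div_iff₀ hN (by positivity)]
    nlinarith

end bounds

variable (ν : Measure ℝ) [IsProbabilityMeasure ν]

/-- Single-site averaging. -/
lemma site {T : Finset ℕ} {i : ℕ} (hiT : i ∉ T) {R F G : (ℕ → ℝ) → ℝ} {φ ψ : ℝ → ℝ} {B : ℝ}
    (hRm : Measurable R) (hR : Dep T R) (hR0 : ∀ η, 0 ≤ R η) (hRB : ∀ η, R η ≤ B)
    (hφ : Measurable φ) (hψ : Measurable ψ) (hφi : Integrable φ ν) (hψi : Integrable ψ ν)
    (hφ0 : 0 ≤ ∫ u, φ u ∂ν) (hψ0 : 0 ≤ ∫ u, ψ u ∂ν)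
    (hF : Integrable F (disorder ν)) (hG : Integrable G (disorder ν))
    (h1 : ∀ η, F η ≤ R η * φ (η i)) (h2 : ∀ η, R η * ψ (η i) ≤ G η) :
    (∫ u, ψ u ∂ν) * ∫ η, F η ∂(disorder ν) ≤ (∫ u, φ u ∂ν) * ∫ η, G η ∂(disorder ν) := by
  have hd : Disjoint T {i} := Finset.disjoint_singleton_right.2 hiT
  have hRi : Integrable R (Cop764.disorder ν) := by
    apply Integrable.of_bound hRm.aestronglyMeasurable B
    filter_upwards with η
    rw [Real.norm_eq_abs, abs_of_nonneg (hR0 η)]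
    exact hRB η
  have hdep : ∀ g : ℝ → ℝ, Dep {i} (fun η : ℕ → ℝ => g (η i)) := by
    intro g η η' h
    beta_reduce
    rw [h i (Finset.mem_singleton_self i)]
  have key : ∀ g : ℝ → ℝ, Measurable g → Integrable g ν →
      Integrable (fun η : ℕ → ℝ => R η * g (η i)) (disorder ν) ∧
      ∫ η, R η * g (η i) ∂(disorder ν) = (∫ η, R η ∂(disorder ν)) * ∫ u, g u ∂ν := by
    intro g hg hgi
    have hgm : Measurable fun η : ℕ → ℝ => g (η i) := hg.comp (measurable_pi_apply i)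
    have hgi' : Integrable (fun η : ℕ → ℝ => g (η i)) (Cop764.disorder ν) :=
      (Cp.integrable_coord ν hg i).2 hgi
    refine ⟨Cp.integrable_mul ν hd hRm hgm hR (hdep g) hRi hgi', ?_⟩
    have := Cp.int_mul ν hd hRm hgm hR (hdep g)
    rw [Cp.int_coord ν hg i] at this
    exact this
  obtain ⟨a1, a2⟩ := key φ hφ hφi
  obtain ⟨b1, b2⟩ := key ψ hψ hψi
  have h3 := integral_mono hF a1 h1
  have h4 := integral_mono b1 hG h2
  rw [a2] at h3
  rw [b2] at h4
  have h5 := mul_le_mul_of_nonneg_left h3 hψ0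
  have h6 := mul_le_mul_of_nonneg_left h4 hφ0
  calc _ ≤ _ := h5
    _ = (∫ u, φ u ∂ν) * ((∫ η, R η ∂(disorder ν)) * ∫ u, ψ u ∂ν) := by ring
    _ ≤ _ := h6

end Pool.Agent.R973.Pin
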