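import Pool.Agent.R973.Pin.Conv

/-!
# Localization at the endpoint
-/

set_option autoImplicit false

open MeasureTheory ProbabilityTheory Filter Topology

namespace Pool.Agent.R973.Pin

open Pool.Agent.R973.Pinning (disorder Z ham walk edgeSign IsFreeEnergy hc)
open Pool.Agent.R973.Cp (Dep)

/-- the maximal exponent -/
noncomputable def Xm (Lm s u : ℝ) : ℝ := Lm * (1 + s * u)

noncomputable def phi1 (Lm s u : ℝ) : ℝ := max (Xm Lm s u) 0 * Real.exp (max (Xm Lm s u) 0)

noncomputable def phi2 (Lm s u : ℝ) : ℝ := 2 + Real.exp (max (Xm Lm s u) 0) / 2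

noncomputable def psi (Lm s u : ℝ) : ℝ := Real.exp (min (Xm Lm s u) 0) / 5

lemma unif {L Lm s u : ℝ} (hL : 0 < L) (hLm : L ≤ Lm) :
    max (L * (1 + s * u)) 0 * Real.exp (L * (1 + s * u)) ≤ phi1 Lm s u ∧
    2 + Real.exp (L * (1 + s * u)) / 2 ≤ phi2 Lm s u ∧
    psi Lm s u ≤ Real.exp (L * (1 + s * u)) / (1 + 4 * Real.exp (L * (1 + s * u))) ∧
    max (L * (1 + s * u)) 0 ≤ phi1 Lm s u := by
  set X := L * (1 + s * u) with hX
  have he := Real.exp_pos X
  have h1 : max X 0 ≤ max (Xm Lm s u) 0 := by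
    apply max_le _ (le_max_right _ _)
    rcases le_total 0 (1 + s * u) with h | h
    · exact (mul_le_mul_of_nonneg_right hLm h).trans (le_max_left _ _)
    · exact (mul_nonpos_of_nonneg_of_nonpos hL.le h).trans (le_max_right _ _)
  have h2 : Real.exp X ≤ Real.exp (max (Xm Lm s u) 0) :=
    Real.exp_le_exp.2 ((le_max_left X 0).trans h1)
  have h3 : 0 ≤ max (Xm Lm s u) 0 := le_max_right _ _
  refine ⟨?_, ?_, ?_, ?_⟩
  · unfold phi1
    exact mul_le_mul h1 h2 he.le h3
  · unfold phi2
    linarith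
  · unfold psi
    rw [div_le_div_iff₀ (by norm_num) (by positivity)]
    rcases le_total 0 X with h | h
    · have h4 : Real.exp (min (Xm Lm s u) 0) ≤ 1 := by
        rw [← Real.exp_zero]
        exact Real.exp_le_exp.2 (min_le_right _ _)
      have h5 : 1 ≤ Real.exp X := Real.one_le_exp h
      have h6 : 0 < Real.exp (min (Xm Lm s u) 0) := Real.exp_pos _
      nlinarith
    · have h4 : Real.exp (min (Xm Lm s u) 0) ≤ Real.exp X := by
        apply Real.exp_le_exp.2
        refine (min_le_left _ _).trans ?_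
        unfold Xm
        rcases le_total 0 (1 + s * u) with h5 | h5
        · have h6 : 1 + s * u = 0 := by
            by_contra h7
            have h8 : 0 < 1 + s * u := lt_of_le_of_ne h5 (Ne.symm h7)
            have := mul_pos hL h8
            linarith
          rw [hX, h6, mul_zero, mul_zero]
        · exact mul_le_mul_of_nonpos_right hLm h5
      have h5 : Real.exp X ≤ 1 := by
        rw [← Real.exp_zero]
        exact Real.exp_le_exp.2 h
      have h6 : 0 < Real.exp (min (Xm Lm s u) 0) := Real.exp_pos _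
      nlinarith
  · unfold phi1
    refine h1.trans ?_
    exact le_mul_of_one_le_right h3 (Real.one_le_exp h3)

variable (ν : Measure ℝ) [IsProbabilityMeasure ν]

lemma exp_max_int {Lm s c t0 : ℝ} (hLm : 0 < Lm) (hs : 0 ≤ s) (hc : 0 ≤ c) (h : c * Lm * s ≤ t0)
    (hexp : Integrable (fun u : ℝ => Real.exp (t0 * u)) ν) :
    Integrable (fun u : ℝ => Real.exp (c * max (Xm Lm s u) 0)) ν := by
  have h1 : Integrable (fun u : ℝ => Real.exp (c * Lm) * (1 + Real.exp (t0 * u))) ν :=
    ((integrable_const _).add hexp).const_mul _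
  have hm : Measurable fun u : ℝ => Real.exp (c * max (Xm Lm s u) 0) := by
    unfold Xm
    fun_prop
  apply h1.mono hm.aestronglyMeasurable
  filter_upwards with u
  rw [Real.norm_eq_abs, Real.norm_eq_abs, abs_of_pos (Real.exp_pos _)]
  refine le_trans ?_ (le_abs_self _)
  have ht0 : 0 ≤ t0 := le_trans (by positivity) h
  have h2 : c * max (Xm Lm s u) 0 ≤ c * Lm + t0 * max u 0 := by
    have h3 : max (Xm Lm s u) 0 ≤ Lm + Lm * s * max u 0 := by
      apply max_le
      · unfold Xm
        have := mul_le_mul_of_nonneg_left (le_max_left u 0) (by positivity : 0 ≤ Lm * s)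
        nlinarith
      · have := mul_nonneg (by positivity : 0 ≤ Lm * s) (le_max_right u 0)
        linarith
    have h4 := mul_le_mul_of_nonneg_left h3 hc
    have h5 := mul_le_mul_of_nonneg_right h (le_max_right u 0)
    nlinarith
  calc Real.exp (c * max (Xm Lm s u) 0) ≤ Real.exp (c * Lm + t0 * max u 0) := Real.exp_le_exp.2 h2
    _ = Real.exp (c * Lm) * Real.exp (t0 * max u 0) := Real.exp_add _ _
    _ ≤ Real.exp (c * Lm) * (1 + Real.exp (t0 * u)) := by
        apply mul_le_mul_of_nonneg_left _ (Real.exp_pos _).le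
        rcases le_total 0 u with h6 | h6
        · rw [max_eq_left h6]; linarith
        · rw [max_eq_right h6, mul_zero, Real.exp_zero]
          linarith [Real.exp_pos (t0 * u)]

lemma phi_int {Lm s ε t0 : ℝ} (hLm : 0 < Lm) (hs : 0 ≤ s) (hε : 0 < ε)
    (h : (1 + ε) * Lm * s ≤ t0) (hexp : Integrable (fun u : ℝ => Real.exp (t0 * u)) ν) :
    Integrable (phi1 Lm s) ν ∧ Integrable (phi2 Lm s) ν ∧ Integrable (psi Lm s) ν := by
  have h1 := exp_max_int ν hLm hs (by positivity : 0 ≤ 1 + ε) h hexp
  have hXm : Measurable fun u : ℝ => Xm Lm s u := by unfold Xm; fun_prop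
  refine ⟨?_, ?_, ?_⟩
  · have h2 : Integrable (fun u : ℝ => 1 / ε * Real.exp ((1 + ε) * max (Xm Lm s u) 0)) ν :=
      h1.const_mul _
    have hm : Measurable (phi1 Lm s) := by
      unfold phi1
      exact (hXm.max measurable_const).mul (hXm.max measurable_const).exp
    apply h2.mono hm.aestronglyMeasurable
    filter_upwards with u
    rw [Real.norm_eq_abs, Real.norm_eq_abs]
    unfold phi1
    set y := max (Xm Lm s u) 0 with hy
    have hy0 : 0 ≤ y := le_max_right _ _
    rw [abs_of_nonneg (mul_nonneg hy0 (Real.exp_pos y).le)]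
    refine le_trans ?_ (le_abs_self _)
    have h3 : ε * y ≤ Real.exp (ε * y) := by
      have := Real.add_one_le_exp (ε * y)
      linarith
    have h4 : Real.exp ((1 + ε) * y) = Real.exp y * Real.exp (ε * y) := by
      rw [← Real.exp_add]; congr 1; ring
    rw [h4]
    have h5 := mul_le_mul_of_nonneg_right h3 (Real.exp_pos y).le
    have h6 : y * Real.exp y = 1 / ε * (ε * y * Real.exp y) := by field_simp
    rw [h6]
    apply mul_le_mul_of_nonneg_left _ (by positivity)
    linarith
  · have h2 := exp_max_int ν (c := 1) hLm hs zero_le_one (by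
      have : 0 ≤ ε * Lm * s := by positivity
      nlinarith) hexp
    have h3 : Integrable (fun u : ℝ => 2 + Real.exp (1 * max (Xm Lm s u) 0) / 2) ν :=
      (integrable_const _).add (h2.div_const 2)
    refine h3.congr ?_
    filter_upwards with u
    unfold phi2
    rw [one_mul]
  · have hm : Measurable (psi Lm s) := by
      unfold psi
      exact (hXm.min measurable_const).exp.div_const 5
    apply Integrable.of_bound hm.aestronglyMeasurable 1
    filter_upwards with u
    unfold psi
    rw [Real.norm_eq_abs, abs_of_pos (by positivity)]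
    have : Real.exp (min (Xm Lm s u) 0) ≤ 1 := by
      rw [← Real.exp_zero]
      exact Real.exp_le_exp.2 (min_le_right _ _)
    linarith

lemma psi_int_pos (Lm s : ℝ) (h : Integrable (psi Lm s) ν) : 0 < ∫ u, psi Lm s u ∂ν := by
  rw [integral_pos_iff_support_of_nonneg (fun u => by unfold psi; positivity) h]
  have : Function.support (psi Lm s) = Set.univ := by
    ext u
    simp only [Function.mem_support, Set.mem_univ, iff_true]
    unfold psi
    positivity
  rw [this, measure_univ]
  exact one_pos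

lemma measurable_phi1 (Lm s : ℝ) : Measurable (phi1 Lm s) := by
  unfold phi1 Xm
  fun_prop

lemma measurable_phi2 (Lm s : ℝ) : Measurable (phi2 Lm s) := by
  unfold phi2 Xm
  fun_prop

lemma measurable_psi (Lm s : ℝ) : Measurable (psi Lm s) := by
  unfold psi Xm
  fun_prop

/-- The basic comparison: contacts weighted by the positive part of the reward are dominated by
lower excursions of length two. -/
lemma contact_le {q L Lm s : ℝ} (hq : 0 < q) (hq1 : q ≤ 1) (hL : 0 < L) (hLm : L ≤ Lm)
    (h1 : Integrable (phi1 Lm s) ν) (h2 : Integrable (phi2 Lm s) ν) (h3 : Integrable (psi Lm s) ν)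
    {n i : ℕ} (hi : 1 ≤ i) (hin : i + 2 ≤ n) :
    ∫ η, max (xr L s η i) 0 * pc q (xr L s η) n i ∂(disorder ν)
      ≤ ((∫ u, phi1 Lm s u ∂ν) / (∫ u, psi Lm s u ∂ν)) * (4 * (∫ u, phi2 Lm s u ∂ν)
        / (q ^ 2 * ∫ u, psi Lm s u ∂ν)) * ∫ η, rc q (xr L s η) n i ∂(disorder ν) := by
  have hψ := psi_int_pos ν Lm s h3
  set c := ∫ u, psi Lm s u ∂ν with hc
  set M1 := ∫ u, phi1 Lm s u ∂ν with hM1
  set M2 := ∫ u, phi2 Lm s u ∂ν with hM2
  have hM10 : 0 ≤ M1 := integral_nonneg fun u => by
    unfold phi1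
    exact mul_nonneg (le_max_right _ _) (Real.exp_pos _).le
  have hM20 : 0 ≤ M2 := integral_nonneg fun u => by
    unfold phi2
    positivity
  have hinn : i ≤ n := by omega
  -- integrability
  have hpci : Integrable (fun η => pc q (xr L s η) n i) (disorder ν) := by
    apply Integrable.of_bound (measurable_pc n i).aestronglyMeasurable 1
    filter_upwards with η
    obtain ⟨_, b, c, _⟩ := pc_le (x := xr L s η) hq hq1 hi hinn
    rw [Real.norm_eq_abs, abs_of_nonneg c]
    exact b
  have hrci : Integrable (fun η => rc q (xr L s η) n i) (disorder ν) := by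
    apply Integrable.of_bound (measurable_rc n i).aestronglyMeasurable 1
    filter_upwards with η
    obtain ⟨_, b, c, _, _⟩ := rc_ge (x := xr L s η) hq hq1 hi hin
    rw [Real.norm_eq_abs, abs_of_nonneg b]
    exact c
  have hmaxi : Integrable (fun η => max (xr L s η i) 0 * pc q (xr L s η) n i) (disorder ν) := by
    have e1 : Integrable (fun η : ℕ → ℝ => phi1 Lm s (η i)) (disorder ν) :=
      integrable_coord' ν (measurable_phi1 Lm s) i h1
    have hm : Measurable fun η : ℕ → ℝ => max (xr L s η i) 0 * pc q (xr L s η) n i :=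
      ((measurable_xr i).max measurable_const).mul (measurable_pc n i)
    apply e1.mono hm.aestronglyMeasurable
    filter_upwards with η
    obtain ⟨_, b, c, _⟩ := pc_le (x := xr L s η) hq hq1 hi hinn
    have e2 : 0 ≤ max (xr L s η i) 0 := le_max_right _ _
    rw [Real.norm_eq_abs, Real.norm_eq_abs, abs_of_nonneg (mul_nonneg e2 c)]
    refine le_trans ?_ (le_abs_self _)
    refine le_trans (mul_le_of_le_one_right e2 b) ?_
    exact (unif (u := η i) hL hLm).2.2.2
  -- first step
  have hR : ∀ η : ℕ → ℝ, 0 ≤ Yw q (xr L s η) n i / Nw q (xr L s η) n i := fun η =>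
    div_nonneg (Yw_nonneg hq.le) (Nw_pos hq hq1 hi hinn).le
  have hRB : ∀ η : ℕ → ℝ, Yw q (xr L s η) n i / Nw q (xr L s η) n i ≤ 4 := fun η => by
    rw [div_le_iff₀ (Nw_pos hq hq1 hi hinn)]
    exact Yw_le hq.le hq1 n hi
  have hdep1 : Dep ((Finset.Icc 1 n).erase i)
      (fun η : ℕ → ℝ => Yw q (xr L s η) n i / Nw q (xr L s η) n i) := by
    intro η η' h
    have h4 : ∀ j, 1 ≤ j → j ≤ n → j ≠ i → xr L s η j = xr L s η' j := by
      intro j a b c
      unfold xr
      rw [h j (Finset.mem_erase.2 ⟨c, Finset.mem_Icc.2 ⟨a, b⟩⟩)]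
    beta_reduce
    rw [Yw_congr hinn h4, Nw_congr hinn h4]
  have s1 := site ν (Finset.notMem_erase i _) (F := fun η => max (xr L s η i) 0 * pc q (xr L s η) n i)
    (G := fun η => pc q (xr L s η) n i) (φ := phi1 Lm s) (ψ := psi Lm s) (B := 4)
    ((measurable_Yw n i).div (measurable_Nw n i)) hdep1 hR hRB (measurable_phi1 Lm s)
    (measurable_psi Lm s) h1 h3 hM10 hψ.le hmaxi hpci
    (by
      intro η
      obtain ⟨a, _, _, _⟩ := pc_le (x := xr L s η) hq hq1 hi hinn
      have e2 : 0 ≤ max (xr L s η i) 0 := le_max_right _ _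
      have e3 := (unif (s := s) (u := η i) hL hLm).1
      calc _ ≤ max (xr L s η i) 0 * (Yw q (xr L s η) n i / Nw q (xr L s η) n i
            * Real.exp (xr L s η i)) := mul_le_mul_of_nonneg_left a e2
        _ = Yw q (xr L s η) n i / Nw q (xr L s η) n i
            * (max (xr L s η i) 0 * Real.exp (xr L s η i)) := by ring
        _ ≤ _ := mul_le_mul_of_nonneg_left e3 (hR η))
    (by
      intro η
      obtain ⟨_, _, _, d⟩ := pc_le (x := xr L s η) hq hq1 hi hinn
      refine le_trans (mul_le_mul_of_nonneg_left ?_ (hR η)) d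
      exact (unif (s := s) (u := η i) hL hLm).2.2.1)
  -- second step
  have hQ : ∀ η : ℕ → ℝ, 0 ≤ Uw q (xr L s η) n i / Nw q (xr L s η) n (i + 2) := fun η =>
    div_nonneg (Uw_nonneg hq.le) (Nw_pos hq hq1 (by omega) hin).le
  have hdep2 : Dep ((Finset.Icc 1 n).erase (i + 2))
      (fun η : ℕ → ℝ => Uw q (xr L s η) n i / Nw q (xr L s η) n (i + 2)) := by
    intro η η' h
    have h4 : ∀ j, 1 ≤ j → j ≤ n → j ≠ i + 2 → xr L s η j = xr L s η' j := by
      intro j a b c
      unfold xr
      rw [h j (Finset.mem_erase.2 ⟨c, Finset.mem_Icc.2 ⟨a, b⟩⟩)]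
    beta_reduce
    rw [Uw_congr hi hin h4, Nw_congr hin h4]
  have h3' : Integrable (fun u => q ^ 2 / 4 * psi Lm s u) ν := h3.const_mul _
  have hψ' : ∫ u, q ^ 2 / 4 * psi Lm s u ∂ν = q ^ 2 / 4 * c := by rw [integral_const_mul]
  have s2 := site ν (Finset.notMem_erase (i + 2) _) (F := fun η => pc q (xr L s η) n i)
    (G := fun η => rc q (xr L s η) n i) (φ := phi2 Lm s) (ψ := fun u => q ^ 2 / 4 * psi Lm s u)
    (B := 16 / q ^ 2)
    ((measurable_Uw n i).div (measurable_Nw n (i + 2))) hdep2 hQ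
    (fun η => (rc_ge (x := xr L s η) hq hq1 hi hin).2.2.2.2) (measurable_phi2 Lm s)
    ((measurable_psi Lm s).const_mul _) h2 h3' hM20 (by rw [hψ']; positivity) hpci hrci
    (by
      intro η
      obtain ⟨a, _, _, _, _⟩ := rc_ge (x := xr L s η) hq hq1 hi hin
      refine a.trans (mul_le_mul_of_nonneg_left ?_ (hQ η))
      exact (unif (s := s) (u := η (i + 2)) hL hLm).2.1)
    (by
      intro η
      obtain ⟨_, _, _, d, _⟩ := rc_ge (x := xr L s η) hq hq1 hi hin
      refine le_trans (mul_le_mul_of_nonneg_left ?_ (hQ η)) d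
      exact mul_le_mul_of_nonneg_left (unif (s := s) (u := η (i + 2)) hL hLm).2.2.1 (by positivity))
  rw [hψ'] at s2
  have hrc0 : 0 ≤ ∫ η, rc q (xr L s η) n i ∂(disorder ν) := integral_nonneg fun η =>
    (rc_ge (x := xr L s η) hq hq1 hi hin).2.1
  rw [← hc, ← hM1] at s1
  rw [← hM2] at s2
  set I1 := ∫ η, max (xr L s η i) 0 * pc q (xr L s η) n i ∂(disorder ν)
  set I2 := ∫ η, pc q (xr L s η) n i ∂(disorder ν)
  set I3 := ∫ η, rc q (xr L s η) n i ∂(disorder ν)
  have e1 : I1 ≤ M1 / c * I2 := by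
    rw [div_mul_eq_mul_div, le_div_iff₀ hψ]
    linarith
  have e2 : I2 ≤ 4 * M2 / (q ^ 2 * c) * I3 := by
    rw [div_mul_eq_mul_div, le_div_iff₀ (by positivity)]
    linarith
  calc I1 ≤ M1 / c * I2 := e1
    _ ≤ M1 / c * (4 * M2 / (q ^ 2 * c) * I3) := mul_le_mul_of_nonneg_left e2 (by positivity)
    _ = _ := by ring

end Pool.Agent.R973.Pin
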