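import Pool.Agent.R973.Pin.Path

/-!
# Comparison of two partition functions
-/

set_option autoImplicit false

open Finset

namespace Pool.Agent.R973.Pin

open Pool.Agent.R973.Pinning (walk edgeSign ham Z)

/-- Weighted Jensen inequality for the exponential. -/
lemma jensen {ι : Type*} (T : Finset ι) (w D : ι → ℝ) (m : ℝ) (hw : ∀ i ∈ T, 0 ≤ w i)
    (h : m * ∑ i ∈ T, w i ≤ ∑ i ∈ T, w i * D i) :
    Real.exp m * ∑ i ∈ T, w i ≤ ∑ i ∈ T, w i * Real.exp (D i) := by
  have h1 : ∀ i ∈ T, w i * (Real.exp m * (1 + D i - m)) ≤ w i * Real.exp (D i) := by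
    intro i hi
    apply mul_le_mul_of_nonneg_left _ (hw i hi)
    have h2 := Real.add_one_le_exp (D i - m)
    have h3 : Real.exp (D i) = Real.exp m * Real.exp (D i - m) := by
      rw [← Real.exp_add]; congr 1; ring
    rw [h3]
    apply mul_le_mul_of_nonneg_left _ (Real.exp_pos m).le
    linarith
  have h4 := sum_le_sum h1
  have h5 : ∑ i ∈ T, w i * (Real.exp m * (1 + D i - m))
      = Real.exp m * (∑ i ∈ T, w i + (∑ i ∈ T, w i * D i - m * ∑ i ∈ T, w i)) := by
    rw [mul_sum T w m, ← sum_sub_distrib, ← sum_add_distrib, mul_sum]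
    apply sum_congr rfl
    intro i _
    ring
  rw [h5] at h4
  refine le_trans ?_ h4
  apply mul_le_mul_of_nonneg_left _ (Real.exp_pos m).le
  linarith

lemma ham_diff {lam a h s : ℝ} (hlam : 0 < lam) (ha : 0 < a) (η : ℕ → ℝ) {n : ℕ}
    (ε : Fin n → Bool) :
    -(n : ℝ) - a / (lam + a) * ∑ i ∈ Icc 1 n,
        max (xr (lam + a) s η i) 0 * (if walk ε i = 0 then 1 else 0)
      + 2 * ∑ i ∈ Icc 1 (n - 2), (if walk ε i = 0 ∧ walk ε (i + 1) = -1 then (1 : ℝ) else 0)
      ≤ ham lam h s η n (walk ε) - ham (lam + a) (h + 1) s η n (walk ε) := by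
  unfold ham
  rw [← sum_sub_distrib]
  have h1 : ∀ i ∈ Icc 1 n,
      -1 - a / (lam + a) * (max (xr (lam + a) s η i) 0 * (if walk ε i = 0 then 1 else 0))
        + 2 * (if 0 < walk ε (i - 1) + walk ε i then (0 : ℝ) else 1)
      ≤ lam * (1 + s * η i) * (if walk ε i = 0 then 1 else 0) + h * edgeSign (walk ε) i
        - ((lam + a) * (1 + s * η i) * (if walk ε i = 0 then 1 else 0)
          + (h + 1) * edgeSign (walk ε) i) := by
    intro i _
    have e1 : a * (1 + s * η i) ≤ a / (lam + a) * max (xr (lam + a) s η i) 0 := by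
      have e2 : a * (1 + s * η i) = a / (lam + a) * xr (lam + a) s η i := by
        unfold xr
        field_simp
      rw [e2]
      exact mul_le_mul_of_nonneg_left (le_max_left _ _) (by positivity)
    have e3 : edgeSign (walk ε) i = 1 - 2 * (if 0 < walk ε (i - 1) + walk ε i then (0 : ℝ) else 1) := by
      unfold edgeSign
      split_ifs <;> norm_num
    rw [e3]
    by_cases hw : walk ε i = 0
    · rw [if_pos hw]
      linarith
    · rw [if_neg hw]
      linarith
  refine le_trans ?_ (sum_le_sum h1)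
  rw [sum_add_distrib, sum_sub_distrib, ← mul_sum, ← mul_sum, sum_const, Nat.card_Icc,
    nsmul_eq_mul, Nat.add_sub_cancel]
  have h2 : ∑ i ∈ Icc 1 (n - 2), (if walk ε i = 0 ∧ walk ε (i + 1) = -1 then (1 : ℝ) else 0)
      ≤ ∑ i ∈ Icc 1 n, (if 0 < walk ε (i - 1) + walk ε i then (0 : ℝ) else 1) := by
    have h3 : ∀ i ∈ Icc 1 (n - 2), (if walk ε i = 0 ∧ walk ε (i + 1) = -1 then (1 : ℝ) else 0)
        ≤ (fun i => if 0 < walk ε (i - 1) + walk ε i then (0 : ℝ) else 1) (i + 1) := by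
      intro i _
      simp only [Nat.add_sub_cancel]
      by_cases h4 : walk ε i = 0 ∧ walk ε (i + 1) = -1
      · rw [if_pos h4, if_neg (by rw [h4.1, h4.2]; norm_num)]
      · rw [if_neg h4]
        split_ifs <;> norm_num
    refine (sum_le_sum h3).trans ?_
    rw [← sum_image (g := fun i : ℕ => i + 1)
      (f := fun i => if 0 < walk ε (i - 1) + walk ε i then (0 : ℝ) else 1)
      (fun a _ b _ h => by simpa using h)]
    apply sum_le_sum_of_subset_of_nonneg
    · intro i hi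
      rw [mem_image] at hi
      obtain ⟨j, hj, rfl⟩ := hi
      rw [mem_Icc] at hj ⊢
      omega
    · intro i _ _
      split_ifs <;> norm_num
  linarith

/-- The contact probabilities. -/
noncomputable def pc (q : ℝ) (x : ℕ → ℝ) (n i : ℕ) : ℝ :=
  Real.exp (x i) * Yw q x n i / Vk q (As x) n 0 0

/-- The probabilities of a lower excursion of length two. -/
noncomputable def rc (q : ℝ) (x : ℕ → ℝ) (n i : ℕ) : ℝ :=
  q ^ 2 / 4 * (Real.exp (x (i + 2)) * Uw q x n i) / Vk q (As x) n 0 0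

lemma Vk_pos {q : ℝ} (hq : 0 < q) {A : ℕ → ℤ → ℝ} (hA : ∀ j y, 0 < A j y) (k : ℕ) :
    ∀ t y, 0 < Vk q A k t y := by
  induction k with
  | zero => intro t y; exact one_pos
  | succ k ih =>
    intro t y
    rw [Vk_succ]
    have h1 := mul_pos (hA (t + 1) (y + 1)) (ih (t + 1) (y + 1))
    have h2 := mul_pos (hA (t + 1) (y - 1)) (ih (t + 1) (y - 1))
    split_ifs <;> positivity

theorem log_Z_ge {lam a h s : ℝ} (hlam : 0 < lam) (ha : 0 < a) (η : ℕ → ℝ) (n : ℕ) {q : ℝ}
    {x : ℕ → ℝ} (hq : q = Real.exp (-2 * (h + 1))) (hx : x = xr (lam + a) s η) :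
    Real.log (Z (lam + a) (h + 1) s n η) - n - a / (lam + a) * ∑ i ∈ Icc 1 n, max (x i) 0 * pc q x n i
      + 2 * ∑ i ∈ Icc 1 (n - 2), rc q x n i ≤ Real.log (Z lam h s n η) := by
  have hq0 : 0 < q := by rw [hq]; exact Real.exp_pos _
  have hApos : ∀ j y, 0 < As x j y := As_pos x
  set V := Vk q (As x) n 0 0 with hV
  have hVpos : 0 < V := Vk_pos hq0 hApos n 0 0
  set w : (Fin n → Bool) → ℝ := fun ε => pwt q (As x) 0 0 ε with hw
  have hw0 : ∀ ε, 0 ≤ w ε := fun ε => pwt_nonneg hq0.le (fun j y => (hApos j y).le) _ _ ε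
  have hws : ∑ ε, w ε = 2 ^ n * V := by
    have := path_sum q (As x) n 0 0
    rw [div_eq_iff (by positivity)] at this
    rw [hw, this]
    ring
  have hδ : ∀ i ∈ Icc 1 n, ∑ ε, w ε * (if walk ε i = 0 then 1 else 0) ≤ pc q x n i * ∑ ε, w ε := by
    intro i hi
    rw [mem_Icc] at hi
    have h1 : ∀ ε ∈ (univ : Finset (Fin n → Bool)), w ε * (if walk ε i = 0 then 1 else 0)
        ≤ pwt q (A1 x i) 0 0 ε := by
      intro ε _
      by_cases h2 : walk ε i = 0
      · rw [if_pos h2, mul_one, pwt_A1 ε h2]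
      · rw [if_neg h2, mul_zero]
        apply pwt_nonneg hq0.le
        intro j y
        unfold A1
        apply mul_nonneg _ (hApos j y).le
        split_ifs <;> norm_num
    refine (sum_le_sum h1).trans ?_
    have h3 := path_sum q (A1 x i) n 0 0
    rw [div_eq_iff (by positivity), Vk_A1 hi.1 hi.2] at h3
    rw [h3, hws]
    unfold pc
    rw [← hV]
    apply le_of_eq
    field_simp
  have hι : ∀ i ∈ Icc 1 (n - 2), rc q x n i * ∑ ε, w ε
      ≤ ∑ ε, w ε * (if walk ε i = 0 ∧ walk ε (i + 1) = -1 then 1 else 0) := by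
    intro i hi
    rw [mem_Icc] at hi
    have hin : i + 2 ≤ n := by omega
    have h1 : ∀ ε ∈ (univ : Finset (Fin n → Bool)), pwt q (A3 x i) 0 0 ε
        ≤ w ε * (if walk ε i = 0 ∧ walk ε (i + 1) = -1 then 1 else 0) := by
      intro ε _
      rw [mul_comm]
      exact pwt_A3_le hq0.le hi.1 hin ε
    refine le_trans ?_ (sum_le_sum h1)
    have h3 := path_sum q (A3 x i) n 0 0
    rw [div_eq_iff (by positivity), Vk_A3 hi.1 hin] at h3
    rw [h3, hws]
    unfold rc
    rw [← hV]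
    apply le_of_eq
    field_simp
  set m : ℝ := -(n : ℝ) - a / (lam + a) * ∑ i ∈ Icc 1 n, max (x i) 0 * pc q x n i
      + 2 * ∑ i ∈ Icc 1 (n - 2), rc q x n i with hm
  set D : (Fin n → Bool) → ℝ := fun ε => ham lam h s η n (walk ε)
    - ham (lam + a) (h + 1) s η n (walk ε) with hD
  have hmean : m * ∑ ε, w ε ≤ ∑ ε, w ε * D ε := by
    have h1 : ∀ ε ∈ (univ : Finset (Fin n → Bool)), w ε * (-(n : ℝ) - a / (lam + a)
        * ∑ i ∈ Icc 1 n, max (x i) 0 * (if walk ε i = 0 then 1 else 0)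
        + 2 * ∑ i ∈ Icc 1 (n - 2), (if walk ε i = 0 ∧ walk ε (i + 1) = -1 then (1 : ℝ) else 0))
        ≤ w ε * D ε := by
      intro ε _
      apply mul_le_mul_of_nonneg_left _ (hw0 ε)
      rw [hx]
      exact ham_diff hlam ha η ε
    refine le_trans ?_ (sum_le_sum h1)
    have h2 : ∑ ε, w ε * (-(n : ℝ) - a / (lam + a)
        * ∑ i ∈ Icc 1 n, max (x i) 0 * (if walk ε i = 0 then 1 else 0)
        + 2 * ∑ i ∈ Icc 1 (n - 2), (if walk ε i = 0 ∧ walk ε (i + 1) = -1 then (1 : ℝ) else 0))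
        = -(n : ℝ) * ∑ ε, w ε - a / (lam + a) * ∑ i ∈ Icc 1 n, max (x i) 0
          * ∑ ε, w ε * (if walk ε i = 0 then 1 else 0)
          + 2 * ∑ i ∈ Icc 1 (n - 2), ∑ ε, w ε
            * (if walk ε i = 0 ∧ walk ε (i + 1) = -1 then 1 else 0) := by
      rw [sum_comm (s := Icc 1 (n - 2))]
      have h3 : ∑ i ∈ Icc 1 n, max (x i) 0 * ∑ ε, w ε * (if walk ε i = 0 then 1 else 0)
          = ∑ ε, w ε * ∑ i ∈ Icc 1 n, max (x i) 0 * (if walk ε i = 0 then 1 else 0) := by
        simp only [mul_sum]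
        rw [sum_comm]
        apply sum_congr rfl
        intro ε _
        apply sum_congr rfl
        intro i _
        ring
      rw [h3, mul_sum univ w, mul_sum univ _ (a / (lam + a)), mul_sum univ _ (2 : ℝ),
        ← sum_sub_distrib, ← sum_add_distrib]
      apply sum_congr rfl
      intro ε _
      rw [← mul_sum]
      ring
    rw [h2, hm]
    have h4 : ∑ i ∈ Icc 1 n, max (x i) 0 * ∑ ε, w ε * (if walk ε i = 0 then 1 else 0)
        ≤ (∑ i ∈ Icc 1 n, max (x i) 0 * pc q x n i) * ∑ ε, w ε := by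
      rw [sum_mul]
      apply sum_le_sum
      intro i hi
      rw [mul_assoc]
      exact mul_le_mul_of_nonneg_left (hδ i hi) (le_max_right _ _)
    have h5 : (∑ i ∈ Icc 1 (n - 2), rc q x n i) * ∑ ε, w ε
        ≤ ∑ i ∈ Icc 1 (n - 2), ∑ ε, w ε
            * (if walk ε i = 0 ∧ walk ε (i + 1) = -1 then 1 else 0) := by
      rw [sum_mul]
      exact sum_le_sum hι
    have h6 := mul_le_mul_of_nonneg_left h4 (by positivity : 0 ≤ a / (lam + a))
    nlinarith
  have hjen := jensen univ w D m (fun ε _ => hw0 ε) hmean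
  have hexp : ∀ ε : Fin n → Bool, Real.exp (ham (lam + a) (h + 1) s η n (walk ε))
      = Real.exp ((h + 1) * n) * w ε := by
    intro ε
    rw [exp_ham, hw, hq, hx]
  have hZ1 : Z (lam + a) (h + 1) s n η = Real.exp ((h + 1) * n) * (∑ ε, w ε) / 2 ^ n := by
    unfold Z
    rw [sum_congr rfl fun ε _ => hexp ε, ← mul_sum]
  have hZ2 : Z lam h s n η = Real.exp ((h + 1) * n) * (∑ ε, w ε * Real.exp (D ε)) / 2 ^ n := by
    unfold Z
    rw [mul_sum]
    congr 1
    apply sum_congr rfl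
    intro ε _
    rw [← mul_assoc, ← hexp, ← Real.exp_add]
    congr 1
    rw [hD]
    ring
  have hpos : 0 < Z (lam + a) (h + 1) s n η := by
    rw [hZ1, hws]
    positivity
  have hle : Real.exp m * Z (lam + a) (h + 1) s n η ≤ Z lam h s n η := by
    rw [hZ1, hZ2]
    have h7 := mul_le_mul_of_nonneg_left hjen (Real.exp_pos ((h + 1) * n)).le
    rw [← mul_div_assoc]
    apply div_le_div_of_nonneg_right _ (by positivity)
    calc _ = Real.exp ((h + 1) * n) * (Real.exp m * ∑ ε, w ε) := by ring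
      _ ≤ _ := h7
  have h8 := Real.log_le_log (by positivity) hle
  rw [Real.log_mul (Real.exp_pos _).ne' hpos.ne', Real.log_exp] at h8
  rw [hm] at h8
  linarith

end Pool.Agent.R973.Pin
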