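import Mathlib

/-!
# Random pinning at a selective interface: definitions
-/

set_option autoImplicit false

open MeasureTheory Filter Topology

namespace Pool.Agent.R973.Pinning

/-- The height at time `i` of the path with the `n` steps `ε` (`true` is a step `+1`, `false` a
step `-1`), started at `0`. -/
def walk {n : ℕ} (ε : Fin n → Bool) (i : ℕ) : ℤ :=
  ∑ j : Fin n, if (j : ℕ) < i then (if ε j then 1 else -1) else 0

/-- The sign of the edge `(w_{i-1}, w_i)`: `1` if it lies in the upper half-plane, `-1` if it lies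
in the lower half-plane. -/
noncomputable def edgeSign (w : ℕ → ℤ) (i : ℕ) : ℝ := if 0 < w (i - 1) + w i then 1 else -1

/-- The Hamiltonian `H_n(w) = ∑_{i=1}^n [λ(1 + s η_i) 1{w_i = 0} + h sign(w_{i-1}, w_i)]`. -/
noncomputable def ham (lam h s : ℝ) (η : ℕ → ℝ) (n : ℕ) (w : ℕ → ℤ) : ℝ :=
  ∑ i ∈ Finset.Icc 1 n, (lam * (1 + s * η i) * (if w i = 0 then 1 else 0) + h * edgeSign w i)

/-- The partition function `Z_n`: the average of `exp(H_n)` over the `2^n` paths. -/
noncomputable def Z (lam h s : ℝ) (n : ℕ) (η : ℕ → ℝ) : ℝ :=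
  (∑ ε : Fin n → Bool, Real.exp (ham lam h s η n (walk ε))) / 2 ^ n

/-- The law of the i.i.d. sequence `η` with common law `ν`. -/
noncomputable def disorder (ν : Measure ℝ) [IsProbabilityMeasure ν] : Measure (ℕ → ℝ) :=
  Measure.infinitePi fun _ : ℕ => ν

/-- `f` is the quenched free energy: for all `λ, h ≥ 0`, almost surely
`n⁻¹ log Z_n → f(λ, h)`. -/
def IsFreeEnergy (ν : Measure ℝ) [IsProbabilityMeasure ν] (s : ℝ) (f : ℝ → ℝ → ℝ) : Prop :=
  ∀ lam h : ℝ, 0 ≤ lam → 0 ≤ h →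
    ∀ᵐ η ∂(disorder ν), Tendsto (fun n : ℕ => (n : ℝ)⁻¹ * Real.log (Z lam h s n η)) atTop
      (𝓝 (f lam h))

/-- The critical curve `h_c(λ) = inf {h ≥ 0 : f(λ,h) = h}`, with values in `[0, ∞]`. -/
noncomputable def hc (f : ℝ → ℝ → ℝ) (lam : ℝ) : EReal :=
  sInf {e : EReal | ∃ h : ℝ, 0 ≤ h ∧ f lam h = h ∧ e = (h : EReal)}

end Pool.Agent.R973.Pinning
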