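import Pool.Agent.R973.Pin.Rec
import Pool.Agent.R973.Pin.Model

/-!
# Path sums
-/

set_option autoImplicit false

open Finset

namespace Pool.Agent.R973.Pin

open Pool.Agent.R973.Pinning (walk edgeSign ham Z)

lemma walk_zero {n : ℕ} (ε : Fin n → Bool) : walk ε 0 = 0 := by
  unfold walk
  simp

lemma walk_cons {n : ℕ} (b : Bool) (ε : Fin n → Bool) (i : ℕ) :
    walk (Fin.cons b ε : Fin (n + 1) → Bool) (i + 1) = (if b then 1 else -1) + walk ε i := by
  unfold walk
  rw [Fin.sum_univ_succ]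
  simp

/-- Edge weight. -/
noncomputable def ew (q : ℝ) (u v : ℤ) : ℝ := if 0 < u + v then 1 else q

/-- Weight of a path. -/
noncomputable def pwt (q : ℝ) (A : ℕ → ℤ → ℝ) {k : ℕ} (t : ℕ) (y : ℤ) (ε : Fin k → Bool) : ℝ :=
  ∏ i ∈ range k, (ew q (y + walk ε i) (y + walk ε (i + 1)) * A (t + i + 1) (y + walk ε (i + 1)))

lemma path_sum (q : ℝ) (A : ℕ → ℤ → ℝ) (k : ℕ) : ∀ (t : ℕ) (y : ℤ),
    (∑ ε : Fin k → Bool, pwt q A t y ε) / 2 ^ k = Vk q A k t y := by
  induction k with
  | zero =>
    intro t y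
    simp [pwt, Vk]
  | succ k ih =>
    intro t y
    have h1 : ∑ ε : Fin (k + 1) → Bool, pwt q A t y ε
        = ∑ p : Bool × (Fin k → Bool), pwt q A t y (Fin.cons p.1 p.2 : Fin (k + 1) → Bool) :=
      ((Fin.consEquiv (fun _ : Fin (k + 1) => Bool)).sum_comp (fun ε => pwt q A t y ε)).symm
    have h2 : ∀ (b : Bool) (ε : Fin k → Bool),
        pwt q A t y (Fin.cons b ε : Fin (k + 1) → Bool)
          = ew q y (y + (if b then 1 else -1)) * A (t + 1) (y + (if b then 1 else -1))
            * pwt q A (t + 1) (y + (if b then 1 else -1)) ε := by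
      intro b ε
      unfold pwt
      rw [prod_range_succ']
      rw [mul_comm]
      congr 1
      · rw [walk_zero, walk_cons, walk_zero, add_zero, add_zero]
      · apply prod_congr rfl
        intro i _
        rw [walk_cons, walk_cons]
        rw [show t + (i + 1) + 1 = t + 1 + i + 1 by omega]
        simp only [← add_assoc]
    rw [h1, Fintype.sum_prod_type, Fintype.sum_bool]
    simp only [h2]
    rw [← mul_sum, ← mul_sum]
    have h3 := ih (t + 1) (y + 1)
    have h4 := ih (t + 1) (y - 1)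
    rw [Vk_succ, ← h3, ← h4]
    simp only [if_true, Bool.false_eq_true, if_false]
    have e1 : ew q y (y + 1) = if 0 ≤ y then 1 else q := by
      unfold ew
      congr 1
      apply propext
      constructor <;> intro h <;> omega
    have e2 : ew q y (y + -1) = if 1 ≤ y then 1 else q := by
      unfold ew
      congr 1
      apply propext
      constructor <;> intro h <;> omega
    rw [e1, e2, ← sub_eq_add_neg]
    field_simp
    ring

/-- The rewards. -/
noncomputable def xr (lam s : ℝ) (η : ℕ → ℝ) (i : ℕ) : ℝ := lam * (1 + s * η i)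

lemma exp_ham (lam h s : ℝ) (η : ℕ → ℝ) {n : ℕ} (ε : Fin n → Bool) :
    Real.exp (ham lam h s η n (walk ε))
      = Real.exp (h * n) * pwt (Real.exp (-2 * h)) (As (xr lam s η)) 0 0 ε := by
  unfold ham pwt
  have h1 : ∑ i ∈ Icc 1 n, (lam * (1 + s * η i) * (if walk ε i = 0 then 1 else 0)
      + h * edgeSign (walk ε) i) = ∑ i ∈ range n, (lam * (1 + s * η (i + 1))
        * (if walk ε (i + 1) = 0 then 1 else 0) + h * edgeSign (walk ε) (i + 1)) := by
    rw [range_eq_Ico, sum_Ico_add' (fun i => lam * (1 + s * η i) * (if walk ε i = 0 then 1 else 0)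
      + h * edgeSign (walk ε) i) 0 n 1]
    rfl
  rw [h1, Real.exp_sum]
  have h2 : Real.exp (h * n) = ∏ _i ∈ range n, Real.exp h := by
    rw [prod_const, card_range, ← Real.exp_nat_mul, mul_comm]
  rw [h2, ← prod_mul_distrib]
  apply prod_congr rfl
  intro i _
  rw [Real.exp_add]
  have e1 : Real.exp (lam * (1 + s * η (i + 1)) * (if walk ε (i + 1) = 0 then 1 else 0))
      = As (xr lam s η) (0 + i + 1) (0 + walk ε (i + 1)) := by
    unfold As xr
    rw [zero_add, zero_add]
    by_cases hw : walk ε (i + 1) = 0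
    · rw [if_pos hw, if_pos ⟨by omega, hw⟩, mul_one]
    · rw [if_neg hw, if_neg (fun h => hw h.2), mul_zero, Real.exp_zero]
  have e2 : Real.exp (h * edgeSign (walk ε) (i + 1))
      = Real.exp h * ew (Real.exp (-2 * h)) (0 + walk ε i) (0 + walk ε (i + 1)) := by
    unfold edgeSign ew
    rw [zero_add, zero_add, Nat.add_sub_cancel]
    split_ifs
    · rw [mul_one, mul_one]
    · rw [← Real.exp_add]
      congr 1
      ring
  rw [e1, e2]
  ring

lemma Z_eq (lam h s : ℝ) (η : ℕ → ℝ) (n : ℕ) :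
    Z lam h s n η = Real.exp (h * n) * Vk (Real.exp (-2 * h)) (As (xr lam s η)) n 0 0 := by
  unfold Z
  rw [← path_sum, sum_congr rfl fun ε _ => exp_ham lam h s η ε, ← mul_sum, mul_div_assoc]

/-- Weights with the constraint of being at zero at time `i`. -/
noncomputable def A1 (x : ℕ → ℝ) (i j : ℕ) (y : ℤ) : ℝ :=
  (if j = i ∧ y ≠ 0 then 0 else 1) * As x j y

/-- Weights with the constraint of being at `0, -1, 0` at times `i, i+1, i+2`. -/
noncomputable def A3 (x : ℕ → ℝ) (i j : ℕ) (y : ℤ) : ℝ :=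
  (if (j = i ∧ y ≠ 0) ∨ (j = i + 1 ∧ y ≠ -1) ∨ (j = i + 2 ∧ y ≠ 0) then 0 else 1) * As x j y

variable {q : ℝ} {x : ℕ → ℝ}

lemma pwt_nonneg (hq : 0 ≤ q) {A : ℕ → ℤ → ℝ} (hA : ∀ j y, 0 ≤ A j y) {k : ℕ} (t : ℕ) (y : ℤ)
    (ε : Fin k → Bool) : 0 ≤ pwt q A t y ε := by
  unfold pwt
  apply prod_nonneg
  intro i _
  apply mul_nonneg _ (hA _ _)
  unfold ew
  split_ifs <;> linarith

lemma pwt_A1 {n i : ℕ} (ε : Fin n → Bool) (h : walk ε i = 0) :
    pwt q (A1 x i) 0 0 ε = pwt q (As x) 0 0 ε := by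
  unfold pwt
  apply prod_congr rfl
  intro j _
  unfold A1
  rw [if_neg, one_mul]
  rintro ⟨h1, h2⟩
  apply h2
  rw [zero_add, ← h, ← h1]
  simp

lemma pwt_A3_le (hq : 0 ≤ q) {n i : ℕ} (hi1 : 1 ≤ i) (hi : i + 2 ≤ n) (ε : Fin n → Bool) :
    pwt q (A3 x i) 0 0 ε
      ≤ (if walk ε i = 0 ∧ walk ε (i + 1) = -1 then 1 else 0) * pwt q (As x) 0 0 ε := by
  split_ifs with h
  · rw [one_mul]
    unfold pwt
    apply prod_le_prod
    · intro j _
      apply mul_nonneg
      · unfold ew
        split_ifs <;> linarith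
      · unfold A3
        apply mul_nonneg _ (As_pos _ _ _).le
        split_ifs <;> norm_num
    · intro j _
      apply mul_le_mul_of_nonneg_left
      · unfold A3
        have := (As_pos x (0 + j + 1) (0 + walk ε (j + 1))).le
        split_ifs
        · rw [zero_mul]; exact this
        · rw [one_mul]
      · unfold ew
        split_ifs <;> linarith
  · rw [zero_mul]
    apply le_of_eq
    unfold pwt
    by_cases h1 : walk ε i = 0
    · have h2 : walk ε (i + 1) ≠ -1 := fun h2 => h ⟨h1, h2⟩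
      apply prod_eq_zero (mem_range.2 (by omega : i < n))
      unfold A3
      rw [if_pos, zero_mul, mul_zero]
      right; left
      refine ⟨by omega, ?_⟩
      rw [zero_add]
      exact h2
    · apply prod_eq_zero (mem_range.2 (by omega : i - 1 < n))
      unfold A3
      rw [if_pos, zero_mul, mul_zero]
      left
      refine ⟨by omega, ?_⟩
      rw [zero_add, Nat.sub_add_cancel hi1]
      exact h1

lemma Vk_A1 {n i : ℕ} (hi1 : 1 ≤ i) (hin : i ≤ n) :
    Vk q (A1 x i) n 0 0 = Real.exp (x i) * Yw q x n i := by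
  have h0 : Vk q (A1 x i) n 0 0 = Pf q (A1 x i) n (A1 x i n) := by
    have := dual (q := q) (A := A1 x i) n 0
    rw [zero_add] at this
    rw [this]
    change _ = A1 x i 0 0 * _
    unfold A1
    rw [As_start, if_neg (by omega), one_mul, one_mul]
  have h1 := dual (q := q) (A := A1 x i) (n - i) i
  rw [show i + (n - i) = n by omega] at h1
  rw [h0, h1]
  have h2 : ∀ j, j ≠ i → A1 x i j = As x j := by
    intro j hj
    funext y
    unfold A1
    rw [if_neg (fun h => hj h.1), one_mul]
  rw [Pf_congr (A' := As x) i _ fun j hj => h2 j (by omega)]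
  have h3 : (fun z => A1 x i i z * Vk q (A1 x i) (n - i) i z) = fun z =>
      (Real.exp (x i) * Vk q (As x) (n - i) i 0) * (if z = 0 then 1 else 0) := by
    funext z
    rw [Vk_congr (A' := As x) (n - i) i z fun j hj _ => h2 j (by omega)]
    unfold A1
    by_cases hz : z = 0
    · subst hz
      rw [if_neg (by simp), As_zero x hi1, if_pos rfl]
      ring
    · rw [if_pos ⟨rfl, hz⟩, if_neg hz]
      ring
  rw [h3, Pf_smul]
  unfold Yw
  ring

/-- The weight `U_i`. -/
noncomputable def Uw (q : ℝ) (x : ℕ → ℝ) (n i : ℕ) : ℝ :=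
  Real.exp (x i) * Pf q (As x) i (fun z => if z = 0 then 1 else 0) * Vk q (As x) (n - i - 2) (i + 2) 0

lemma Vk_A3 {n i : ℕ} (hi1 : 1 ≤ i) (hin : i + 2 ≤ n) :
    Vk q (A3 x i) n 0 0 = q ^ 2 / 4 * (Real.exp (x (i + 2)) * Uw q x n i) := by
  have h0 : Vk q (A3 x i) n 0 0 = Pf q (A3 x i) n (A3 x i n) := by
    have := dual (q := q) (A := A3 x i) n 0
    rw [zero_add] at this
    rw [this]
    change _ = A3 x i 0 0 * _
    unfold A3
    rw [As_start, if_neg (by omega), one_mul, one_mul]
  have h1 := dual (q := q) (A := A3 x i) (n - i) i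
  rw [show i + (n - i) = n by omega] at h1
  rw [h0, h1]
  have h2 : ∀ j, j < i ∨ i + 2 < j → A3 x i j = As x j := by
    intro j hj
    funext y
    unfold A3
    rw [if_neg (by omega), one_mul]
  rw [Pf_congr (A' := As x) i _ fun j hj => h2 j (by omega)]
  obtain ⟨k, hk⟩ : ∃ k, n - i = k + 2 := ⟨n - i - 2, by omega⟩
  have hk2 : n - i - 2 = k := by omega
  have hV : Vk q (A3 x i) (k + 2) i 0
      = q ^ 2 / 4 * (Real.exp (x (i + 2)) * Vk q (As x) k (i + 2) 0) := by
    rw [Vk_succ, Vk_succ, Vk_succ]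
    have c1 : A3 x i (i + 1) (0 + 1) = 0 := by
      unfold A3
      rw [if_pos (by omega), zero_mul]
    have c2 : A3 x i (i + 1) (0 - 1) = 1 := by
      unfold A3
      rw [if_neg (by omega), one_mul, As_ne x _ (by norm_num)]
    have c3 : A3 x i (i + 1 + 1) (0 - 1 + 1) = Real.exp (x (i + 2)) := by
      unfold A3
      rw [if_neg (by omega), one_mul]
      norm_num
      rw [As_zero x (by omega)]
    have c4 : A3 x i (i + 1 + 1) (0 - 1 - 1) = 0 := by
      unfold A3
      rw [if_pos (by omega), zero_mul]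
    rw [c1, c2, c3, c4, Vk_congr (A' := As x) k (i + 1 + 1) (0 - 1 + 1) fun j hj _ => h2 j (by omega)]
    norm_num
    rw [show i + 1 + 1 = i + 2 by omega]
    ring
  have h3 : (fun z => A3 x i i z * Vk q (A3 x i) (n - i) i z) = fun z =>
      (Real.exp (x i) * (q ^ 2 / 4 * (Real.exp (x (i + 2)) * Vk q (As x) k (i + 2) 0)))
        * (if z = 0 then 1 else 0) := by
    funext z
    by_cases hz : z = 0
    · subst hz
      rw [hk, hV]
      unfold A3
      rw [if_neg (by omega), As_zero x hi1, if_pos rfl]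
      ring
    · unfold A3
      rw [if_pos (Or.inl ⟨rfl, hz⟩), if_neg hz]
      ring
  rw [h3, Pf_smul]
  unfold Uw
  rw [hk2]
  ring

end Pool.Agent.R973.Pin
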