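import Mathlib

/-!
# Transfer operators for a path pinned at zero with penalised lower edges
-/

set_option autoImplicit false

namespace Pool.Agent.R973.Pin

/-- One step of the transfer operator; lower edges have the weight `q`. -/
noncomputable def st (q : ℝ) (φ : ℤ → ℝ) (y : ℤ) : ℝ :=
  ((if 0 ≤ y then 1 else q) * φ (y + 1) + (if 1 ≤ y then 1 else q) * φ (y - 1)) / 2

/-- Weight of the paths with `k` steps started at time `t`. -/
noncomputable def Vk (q : ℝ) (A : ℕ → ℤ → ℝ) : ℕ → ℕ → ℤ → ℝ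
  | 0, _, _ => 1
  | k + 1, t, y => st q (fun z => A (t + 1) z * Vk q A k (t + 1) z) y

/-- Weight of the paths with `t` steps from `0`, tested against `φ`. -/
noncomputable def Pf (q : ℝ) (A : ℕ → ℤ → ℝ) : ℕ → (ℤ → ℝ) → ℝ
  | 0, φ => φ 0
  | t + 1, φ => Pf q A t (fun z => A t z * st q φ z)

variable {q : ℝ} {A : ℕ → ℤ → ℝ}

lemma st_mono (hq : 0 ≤ q) {φ ψ : ℤ → ℝ} (h : ∀ z, φ z ≤ ψ z) (y : ℤ) : st q φ y ≤ st q ψ y := by
  unfold st
  have h1 := h (y + 1)
  have h2 := h (y - 1)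
  have e1 : (0 : ℝ) ≤ (if 0 ≤ y then 1 else q) := by split_ifs <;> linarith
  have e2 : (0 : ℝ) ≤ (if 1 ≤ y then 1 else q) := by split_ifs <;> linarith
  have h3 := mul_le_mul_of_nonneg_left h1 e1
  have h4 := mul_le_mul_of_nonneg_left h2 e2
  linarith

lemma st_zero (y : ℤ) : st q (fun _ => 0) y = 0 := by unfold st; ring

lemma st_nonneg (hq : 0 ≤ q) {φ : ℤ → ℝ} (h : ∀ z, 0 ≤ φ z) (y : ℤ) : 0 ≤ st q φ y := by
  have := st_mono hq (φ := fun _ => 0) h y
  rwa [st_zero] at this

lemma st_add (φ ψ : ℤ → ℝ) (y : ℤ) : st q (fun z => φ z + ψ z) y = st q φ y + st q ψ y := by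
  unfold st; ring

lemma st_smul (c : ℝ) (φ : ℤ → ℝ) (y : ℤ) : st q (fun z => c * φ z) y = c * st q φ y := by
  unfold st; ring

lemma Pf_mono (hq : 0 ≤ q) (hA : ∀ t z, 0 ≤ A t z) (n : ℕ) : ∀ {φ ψ : ℤ → ℝ},
    (∀ z, φ z ≤ ψ z) → Pf q A n φ ≤ Pf q A n ψ := by
  induction n with
  | zero => intro φ ψ h; exact h 0
  | succ n ih =>
    intro φ ψ h
    exact ih fun z => mul_le_mul_of_nonneg_left (st_mono hq h z) (hA n z)

lemma Pf_add (n : ℕ) : ∀ (φ ψ : ℤ → ℝ),
    Pf q A n (fun z => φ z + ψ z) = Pf q A n φ + Pf q A n ψ := by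
  induction n with
  | zero => intro φ ψ; rfl
  | succ n ih =>
    intro φ ψ
    change Pf q A n _ = Pf q A n _ + Pf q A n _
    rw [← ih]
    congr 1
    funext z
    rw [st_add]
    ring

lemma Pf_smul (n : ℕ) : ∀ (c : ℝ) (φ : ℤ → ℝ),
    Pf q A n (fun z => c * φ z) = c * Pf q A n φ := by
  induction n with
  | zero => intro c φ; rfl
  | succ n ih =>
    intro c φ
    change Pf q A n _ = c * Pf q A n _
    rw [← ih]
    congr 1
    funext z
    rw [st_smul]
    ring

lemma Pf_zero (n : ℕ) : Pf q A n (fun _ => 0) = 0 := by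
  have := Pf_smul (q := q) (A := A) n 0 (fun _ => 0)
  simpa using this

lemma Pf_nonneg (hq : 0 ≤ q) (hA : ∀ t z, 0 ≤ A t z) (n : ℕ) {φ : ℤ → ℝ} (h : ∀ z, 0 ≤ φ z) :
    0 ≤ Pf q A n φ := by
  have := Pf_mono hq hA n (φ := fun _ => 0) h
  rwa [Pf_zero] at this

lemma Vk_nonneg (hq : 0 ≤ q) (hA : ∀ t z, 0 ≤ A t z) (k : ℕ) : ∀ t y, 0 ≤ Vk q A k t y := by
  induction k with
  | zero => intro t y; exact zero_le_one
  | succ k ih =>
    intro t y
    exact st_nonneg hq (fun z => mul_nonneg (hA _ _) (ih _ _)) y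

lemma Pf_congr {A' : ℕ → ℤ → ℝ} (n : ℕ) : ∀ φ : ℤ → ℝ, (∀ j, j < n → A j = A' j) →
    Pf q A n φ = Pf q A' n φ := by
  induction n with
  | zero => intro φ _; rfl
  | succ n ih =>
    intro φ h
    change Pf q A n _ = Pf q A' n _
    rw [ih _ fun j hj => h j (by omega), h n (by omega)]

lemma Vk_congr {A' : ℕ → ℤ → ℝ} (k : ℕ) : ∀ (t : ℕ) (y : ℤ), (∀ j, t < j → j ≤ t + k → A j = A' j) →
    Vk q A k t y = Vk q A' k t y := by
  induction k with
  | zero => intro t y _; rfl
  | succ k ih =>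
    intro t y h
    change st q _ y = st q _ y
    congr 1
    funext z
    rw [ih (t + 1) z fun j h1 h2 => h j (by omega) (by omega), h (t + 1) (by omega) (by omega)]

lemma dual (k : ℕ) : ∀ t : ℕ, Pf q A (t + k) (A (t + k)) = Pf q A t (fun z => A t z * Vk q A k t z) := by
  induction k with
  | zero =>
    intro t
    congr 1
    funext z
    change A t z = A t z * 1
    rw [mul_one]
  | succ k ih =>
    intro t
    have h := ih (t + 1)
    rw [show t + 1 + k = t + (k + 1) by omega] at h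
    rw [h]
    rfl

/-- The site weights of the pinning model. -/
noncomputable def As (x : ℕ → ℝ) (j : ℕ) (y : ℤ) : ℝ := if 1 ≤ j ∧ y = 0 then Real.exp (x j) else 1

lemma As_pos (x : ℕ → ℝ) (j : ℕ) (y : ℤ) : 0 < As x j y := by
  unfold As; split_ifs <;> positivity

lemma As_ne (x : ℕ → ℝ) (j : ℕ) {y : ℤ} (hy : y ≠ 0) : As x j y = 1 := by
  unfold As; rw [if_neg]; rintro ⟨_, h⟩; exact hy h

lemma As_zero (x : ℕ → ℝ) {j : ℕ} (hj : 1 ≤ j) : As x j 0 = Real.exp (x j) := by
  unfold As; rw [if_pos ⟨hj, rfl⟩]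

lemma As_start (x : ℕ → ℝ) (y : ℤ) : As x 0 y = 1 := by
  unfold As; rw [if_neg]; omega

variable {x : ℕ → ℝ}

/-- the backward weights -/
lemma Vk_succ (k t : ℕ) (y : ℤ) : Vk q A (k + 1) t y =
    ((if 0 ≤ y then 1 else q) * (A (t + 1) (y + 1) * Vk q A k (t + 1) (y + 1))
      + (if 1 ≤ y then 1 else q) * (A (t + 1) (y - 1) * Vk q A k (t + 1) (y - 1))) / 2 := rfl

lemma Vk_reflect (hq : 0 ≤ q) (hq1 : q ≤ 1) (k : ℕ) : ∀ (t : ℕ) (y : ℤ), 0 ≤ y →
    Vk q (As x) k t (-y) ≤ Vk q (As x) k t y := by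
  induction k with
  | zero => intro t y _; exact le_rfl
  | succ k ih =>
    intro t y hy
    rcases eq_or_lt_of_le hy with h0 | h0
    · rw [← h0, neg_zero]
    · have hn : ∀ z, 0 ≤ Vk q (As x) k (t + 1) z := Vk_nonneg hq (fun t z => (As_pos x t z).le) k _
      have hA : ∀ z : ℤ, As x (t + 1) (-z) = As x (t + 1) z := by
        intro z
        unfold As
        simp only [neg_eq_zero]
      rw [Vk_succ, Vk_succ, if_neg (by omega : ¬ (0 : ℤ) ≤ -y), if_neg (by omega : ¬ (1 : ℤ) ≤ -y),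
        if_pos (by omega : (0 : ℤ) ≤ y), if_pos (by omega : (1 : ℤ) ≤ y)]
      have e1 : -y + 1 = -(y - 1) := by ring
      have e2 : -y - 1 = -(y + 1) := by ring
      rw [e1, e2, hA, hA]
      have h1 := mul_le_mul_of_nonneg_left (ih (t + 1) (y - 1) (by omega)) (As_pos x (t + 1) (y - 1)).le
      have h2 := mul_le_mul_of_nonneg_left (ih (t + 1) (y + 1) (by omega)) (As_pos x (t + 1) (y + 1)).le
      have h3 := mul_nonneg (As_pos x (t + 1) (y - 1)).le (hn (-(y - 1)))
      have h4 := mul_nonneg (As_pos x (t + 1) (y + 1)).le (hn (-(y + 1)))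
      have h5 := mul_le_mul_of_nonneg_right hq1 h3
      have h6 := mul_le_mul_of_nonneg_right hq1 h4
      linarith

lemma Vk_ratio (hq : 0 ≤ q) (k : ℕ) : ∀ (t : ℕ) (y : ℤ), 1 ≤ y →
    (y : ℝ) * Vk q (As x) k t (y + 2) ≤ ((y : ℝ) + 2) * Vk q (As x) k t y := by
  induction k with
  | zero =>
    intro t y hy
    change (y : ℝ) * 1 ≤ ((y : ℝ) + 2) * 1
    linarith
  | succ k ih =>
    intro t y hy
    have hy' : (1 : ℝ) ≤ y := by exact_mod_cast hy
    have hn : ∀ z, 0 ≤ Vk q (As x) k (t + 1) z := Vk_nonneg hq (fun t z => (As_pos x t z).le) k _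
    rw [Vk_succ, Vk_succ, if_pos (by omega : (0 : ℤ) ≤ y + 2), if_pos (by omega : (1 : ℤ) ≤ y + 2),
        if_pos (by omega : (0 : ℤ) ≤ y), if_pos (by omega : (1 : ℤ) ≤ y)]
    rw [As_ne x (t + 1) (by omega : y + 2 + 1 ≠ 0), As_ne x (t + 1) (by omega : y + 2 - 1 ≠ 0),
      As_ne x (t + 1) (by omega : y + 1 ≠ 0)]
    have e1 : y + 2 + 1 = (y + 1) + 2 := by ring
    have e2 : y + 2 - 1 = y + 1 := by ring
    rw [e1, e2]
    have h1 := ih (t + 1) (y + 1) (by omega)
    push_cast at h1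
    set a := Vk q (As x) k (t + 1) (y + 1 + 2)
    set b := Vk q (As x) k (t + 1) (y + 1)
    have hb : 0 ≤ b := hn _
    have hc0 : 0 ≤ As x (t + 1) (y - 1) * Vk q (As x) k (t + 1) (y - 1) :=
      mul_nonneg (As_pos x _ _).le (hn _)
    rcases eq_or_lt_of_le hy with h0 | h0
    · have : (y : ℝ) = 1 := by rw [← h0]; norm_num
      rw [this] at h1 ⊢
      linarith
    · rw [As_ne x (t + 1) (by omega : y - 1 ≠ 0)]
      have h2 := ih (t + 1) (y - 1) (by omega)
      rw [show y - 1 + 2 = y + 1 by ring] at h2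
      push_cast at h2
      set c := Vk q (As x) k (t + 1) (y - 1)
      -- (y+1) a ≤ (y+3) b, (y-1) b ≤ (y+1) c
      have h3 : (y : ℝ) * ((y + 1) * (a + b)) ≤ (y + 2) * ((y + 1) * (b + c)) := by
        have h4 : (y : ℝ) * ((y + 1) * a) ≤ y * ((y + 3) * b) :=
          mul_le_mul_of_nonneg_left (by linarith) (by linarith)
        have h5 : ((y : ℝ) + 2) * ((y - 1) * b) ≤ (y + 2) * ((y + 1) * c) :=
          mul_le_mul_of_nonneg_left (by linarith) (by linarith)
        nlinarith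
      have h6 : (0 : ℝ) < y + 1 := by linarith
      have h7 : (y + 1) * (y * (a + b)) ≤ ((y : ℝ) + 1) * ((y + 2) * (b + c)) := by linarith
      have h8 := le_of_mul_le_mul_left h7 h6
      linarith

lemma Vk_one_le (hq : 0 ≤ q) (k t : ℕ) : Vk q (As x) k t 2 ≤ 4 * Vk q (As x) k t 0 := by
  cases k with
  | zero => change (1 : ℝ) ≤ 4 * 1; norm_num
  | succ k =>
    have hn : ∀ z, 0 ≤ Vk q (As x) k (t + 1) z := Vk_nonneg hq (fun t z => (As_pos x t z).le) k _
    rw [Vk_succ, Vk_succ]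
    norm_num
    rw [As_ne x (t + 1) (by norm_num : (3 : ℤ) ≠ 0), As_ne x (t + 1) (by norm_num : (1 : ℤ) ≠ 0),
      As_ne x (t + 1) (by norm_num : (-1 : ℤ) ≠ 0)]
    have h1 := Vk_ratio (x := x) hq k (t + 1) 1 le_rfl
    norm_num at h1
    have h2 := mul_nonneg hq (hn (-1))
    linarith

lemma Vk_zero_le (hq : 0 ≤ q) (hq1 : q ≤ 1) (k t : ℕ) :
    Vk q (As x) (k + 1) t 0 ≤ Vk q (As x) k (t + 1) 1 := by
  have hn : ∀ z, 0 ≤ Vk q (As x) k (t + 1) z := Vk_nonneg hq (fun t z => (As_pos x t z).le) k _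
  rw [Vk_succ]
  norm_num
  rw [As_ne x (t + 1) (by norm_num : (1 : ℤ) ≠ 0), As_ne x (t + 1) (by norm_num : (-1 : ℤ) ≠ 0)]
  have h1 := Vk_reflect (x := x) hq hq1 k (t + 1) 1 zero_le_one
  have h2 := mul_le_mul_of_nonneg_right hq1 (hn (-1))
  linarith

lemma Vk_zero_le_two (hq : 0 ≤ q) (hq1 : q ≤ 1) (k t : ℕ) :
    Vk q (As x) k t 0 ≤ 2 * Vk q (As x) k t 2 := by
  cases k with
  | zero => change (1 : ℝ) ≤ 2 * 1; norm_num
  | succ k =>
    have hn : ∀ z, 0 ≤ Vk q (As x) k (t + 1) z := Vk_nonneg hq (fun t z => (As_pos x t z).le) k _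
    refine (Vk_zero_le hq hq1 k t).trans ?_
    rw [Vk_succ]
    norm_num
    rw [As_ne x (t + 1) (by norm_num : (3 : ℤ) ≠ 0), As_ne x (t + 1) (by norm_num : (1 : ℤ) ≠ 0)]
    have := hn 3
    linarith

/-- Inserting a contact two steps after a contact. -/
lemma Vk_insert (hq : 0 ≤ q) (hq1 : q ≤ 1) (k t : ℕ) : Vk q (As x) (k + 2) t 0 ≤
    (2 + Real.exp (x (t + 2)) / 2) * Vk q (As x) k (t + 2) 0 := by
  refine (Vk_zero_le hq hq1 (k + 1) t).trans ?_
  rw [Vk_succ]
  norm_num
  rw [As_ne x (t + 1 + 1) (by norm_num : (2 : ℤ) ≠ 0), As_zero x (by omega)]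
  have h1 := Vk_one_le (x := x) hq k (t + 1 + 1)
  have e : t + 1 + 1 = t + 2 := by omega
  rw [e] at *
  linarith

/-- Forward reflection. -/
lemma Pf_reflect (hq : 0 ≤ q) (hq1 : q ≤ 1) (n : ℕ) : ∀ φ : ℤ → ℝ, (∀ z, 0 ≤ φ z) →
    (∀ z, 0 ≤ z → φ z = 0) → Pf q (As x) n φ ≤ Pf q (As x) n (fun z => φ (-z)) := by
  induction n with
  | zero =>
    intro φ _ _
    change φ 0 ≤ φ (-0)
    rw [neg_zero]
  | succ n ih =>
    intro φ h0 h1
    have hA : ∀ t z, 0 ≤ As x t z := fun t z => (As_pos x t z).le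
    change Pf q (As x) n (fun z => As x n z * st q φ z)
      ≤ Pf q (As x) n (fun z => As x n z * st q (fun z => φ (-z)) z)
    set ψ : ℤ → ℝ := fun z => if z < 0 then As x n z * st q φ z else 0 with hψ
    set c := As x n 0 * st q φ 0 with hc
    have e1 : (fun z => As x n z * st q φ z) = fun z => (if z = 0 then c else 0) + ψ z := by
      funext z
      simp only [hψ]
      rcases lt_trichotomy z 0 with hz | hz | hz
      · rw [if_neg (by omega), if_pos hz, zero_add]
      · subst hz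
        rw [if_pos rfl, if_neg (by omega), add_zero]
      · rw [if_neg (by omega), if_neg (by omega), add_zero]
        unfold st
        rw [h1 (z + 1) (by omega), h1 (z - 1) (by omega)]
        ring
    rw [e1, Pf_add]
    have hψ0 : ∀ z, 0 ≤ ψ z := by
      intro z
      simp only [hψ]
      split_ifs
      · exact mul_nonneg (hA _ _) (st_nonneg hq h0 z)
      · exact le_rfl
    have h2 := ih ψ hψ0 (fun z hz => by simp only [hψ]; rw [if_neg (by omega)])
    refine (add_le_add_right h2 _).trans ?_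
    rw [← Pf_add]
    apply Pf_mono hq hA
    intro z
    simp only [hψ]
    rcases lt_trichotomy z 0 with hz | hz | hz
    · rw [if_neg (by omega), if_neg (by omega), add_zero]
      exact mul_nonneg (hA _ _) (st_nonneg hq (fun z => h0 (-z)) z)
    · subst hz
      rw [if_pos rfl, if_neg (by omega), add_zero, hc]
      apply mul_le_mul_of_nonneg_left _ (hA _ _)
      unfold st
      norm_num
      rw [h1 1 (by norm_num)]
      have := mul_le_mul_of_nonneg_right hq1 (h0 (-1))
      linarith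
    · rw [if_neg (by omega), if_pos (by omega), zero_add]
      have e2 : As x n (-z) = As x n z := by
        unfold As
        simp only [neg_eq_zero]
      rw [e2]
      apply mul_le_mul_of_nonneg_left _ (hA _ _)
      unfold st
      rw [if_neg (by omega), if_neg (by omega), if_pos (by omega), if_pos (by omega)]
      beta_reduce
      rw [show -(z + 1) = -z - 1 by ring, show -(z - 1) = -z + 1 by ring]
      have e3 := mul_le_mul_of_nonneg_right hq1 (h0 (-z - 1))
      have e4 := mul_le_mul_of_nonneg_right hq1 (h0 (-z + 1))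
      linarith

lemma Pf_contact_le (hq : 0 ≤ q) (hq1 : q ≤ 1) (t : ℕ) :
    Pf q (As x) (t + 1) (fun z => if z = 0 then 1 else 0)
      ≤ 2 * Pf q (As x) (t + 1) (fun z => if z = 2 then 1 else 0) := by
  have hA : ∀ t z, 0 ≤ As x t z := fun t z => (As_pos x t z).le
  have h1 : Pf q (As x) (t + 1) (fun z => if z = 0 then 1 else 0)
      ≤ Pf q (As x) t (fun z => (if z = 1 then 1 / 2 else 0) + (if z = -1 then 1 / 2 else 0)) := by
    change Pf q (As x) t _ ≤ _
    apply Pf_mono hq hA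
    intro z
    unfold st
    by_cases hz : z = 1
    · subst hz
      norm_num
      rw [As_ne x t (by norm_num)]
    · by_cases hz2 : z = -1
      · subst hz2
        norm_num
        rw [As_ne x t (by norm_num)]
        linarith
      · beta_reduce
        rw [if_neg (by omega : ¬ z + 1 = 0), if_neg (by omega : ¬ z - 1 = 0), if_neg hz,
          if_neg hz2]
        simp
  have h2 := Pf_reflect (x := x) hq hq1 t (fun z => if z = -1 then 1 / 2 else 0)
    (fun z => by split_ifs <;> norm_num) (fun z hz => by rw [if_neg (by omega)])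
  have h3 : (fun z : ℤ => (if -z = -1 then (1 / 2 : ℝ) else 0)) = fun z => if z = 1 then 1 / 2 else 0 := by
    funext z
    congr 1
    apply propext
    constructor <;> intro h <;> omega
  simp only [h3] at h2
  have h4 : Pf q (As x) t (fun z => if z = 1 then 1 / 2 else 0)
      ≤ Pf q (As x) (t + 1) (fun z => if z = 2 then 1 else 0) := by
    change _ ≤ Pf q (As x) t _
    apply Pf_mono hq hA
    intro z
    by_cases hz : z = 1
    · subst hz
      unfold st
      norm_num
      rw [As_ne x t (by norm_num)]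
    · rw [if_neg hz]
      exact mul_nonneg (hA _ _) (st_nonneg hq (fun z => by split_ifs <;> norm_num) z)
  rw [Pf_add] at h1
  linarith

/-- Weight of a contact at time `i` (without the reward at `i`). -/
noncomputable def Yw (q : ℝ) (x : ℕ → ℝ) (n i : ℕ) : ℝ :=
  Pf q (As x) i (fun z => if z = 0 then 1 else 0) * Vk q (As x) (n - i) i 0

/-- Weight of no contact at time `i`. -/
noncomputable def Nw (q : ℝ) (x : ℕ → ℝ) (n i : ℕ) : ℝ :=
  Pf q (As x) i (fun z => if z = 0 then 0 else Vk q (As x) (n - i) i z)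

lemma Yw_le (hq : 0 ≤ q) (hq1 : q ≤ 1) (n : ℕ) {i : ℕ} (hi : 1 ≤ i) :
    Yw q x n i ≤ 4 * Nw q x n i := by
  have hA : ∀ t z, 0 ≤ As x t z := fun t z => (As_pos x t z).le
  obtain ⟨t, rfl⟩ : ∃ t, i = t + 1 := ⟨i - 1, by omega⟩
  unfold Yw Nw
  have h1 := Pf_contact_le (x := x) hq hq1 t
  have h2 := Vk_zero_le_two (x := x) hq hq1 (n - (t + 1)) (t + 1)
  have h3 : 0 ≤ Vk q (As x) (n - (t + 1)) (t + 1) 0 := Vk_nonneg hq hA _ _ _
  have h5 : 0 ≤ Pf q (As x) (t + 1) (fun z => if z = 2 then 1 else 0) :=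
    Pf_nonneg hq hA _ fun z => by split_ifs <;> norm_num
  have h4 : Pf q (As x) (t + 1) (fun z => if z = 2 then 1 else 0)
      * Vk q (As x) (n - (t + 1)) (t + 1) 2
      ≤ Pf q (As x) (t + 1) (fun z => if z = 0 then 0 else Vk q (As x) (n - (t + 1)) (t + 1) z) := by
    rw [mul_comm, ← Pf_smul]
    apply Pf_mono hq hA
    intro z
    by_cases hz : z = 2
    · subst hz
      rw [if_pos rfl, if_neg (by norm_num), mul_one]
    · rw [if_neg hz, mul_zero]
      split_ifs
      · exact le_rfl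
      · exact Vk_nonneg hq hA _ _ _
  calc _ ≤ (2 * Pf q (As x) (t + 1) (fun z => if z = 2 then 1 else 0))
        * Vk q (As x) (n - (t + 1)) (t + 1) 0 := mul_le_mul_of_nonneg_right h1 h3
    _ ≤ (2 * Pf q (As x) (t + 1) (fun z => if z = 2 then 1 else 0))
        * (2 * Vk q (As x) (n - (t + 1)) (t + 1) 2) :=
        mul_le_mul_of_nonneg_left h2 (by linarith)
    _ = 4 * (Pf q (As x) (t + 1) (fun z => if z = 2 then 1 else 0)
        * Vk q (As x) (n - (t + 1)) (t + 1) 2) := by ring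
    _ ≤ _ := by linarith

/-- The total weight split according to a contact at `i`. -/
lemma total_split {n i : ℕ} (hi : 1 ≤ i) (hin : i ≤ n) :
    Vk q (As x) n 0 0 = Nw q x n i + Real.exp (x i) * Yw q x n i := by
  have h0 : Vk q (As x) n 0 0 = Pf q (As x) n (As x n) := by
    have := dual (q := q) (A := As x) n 0
    rw [zero_add] at this
    rw [this]
    change _ = As x 0 0 * _
    rw [As_start, one_mul]
  have h1 := dual (q := q) (A := As x) (n - i) i
  rw [show i + (n - i) = n by omega] at h1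
  rw [h0, h1]
  unfold Nw Yw
  have e : (fun z => As x i z * Vk q (As x) (n - i) i z) = fun z =>
      (if z = 0 then 0 else Vk q (As x) (n - i) i z)
        + (Real.exp (x i) * Vk q (As x) (n - i) i 0) * (if z = 0 then 1 else 0) := by
    funext z
    by_cases hz : z = 0
    · subst hz
      rw [if_pos rfl, if_pos rfl, As_zero x hi]
      ring
    · rw [if_neg hz, if_neg hz, As_ne x i hz]
      ring
  rw [e, Pf_add, Pf_smul]
  ring

end Pool.Agent.R973.Pin
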